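import Pool.Agent.helper57.DH.SpecL

/-!
# Module `LGA` (row `d2:LGA`, helper93): bad points of the first two kinds
-/

set_option autoImplicit false

open Filter Topology MeasureTheory
open scoped commutatorElement

namespace Pool.Agent.helper90.DH

open Pool.Agent.helper64.D2

/-- Chebyshev. -/
theorem LGA_cheb (g : ℝ → ℝ) (hg : Integrable (fun x => g x ^ 2)) (t : ℝ) (ht : 0 < t) :
    volume.real {x | t < |g x|} ≤ 1 / t ^ 2 * nsq g := by
  have h := mul_meas_ge_le_integral_of_nonneg (μ := (volume : Measure ℝ)) (f := fun x => g x ^ 2)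
    (Filter.Eventually.of_forall (fun x => sq_nonneg _)) hg (t ^ 2)
  have hsub : {x | t < |g x|} ⊆ {x | t ^ 2 ≤ g x ^ 2} := by
    intro x hx
    have hx' : t < |g x| := hx
    show t ^ 2 ≤ g x ^ 2
    rw [← sq_abs (g x)]
    exact pow_le_pow_left₀ ht.le hx'.le 2
  have hfin : volume {x | t ^ 2 ≤ g x ^ 2} ≠ ⊤ := by
    have h1 : (0 : ℝ) < t ^ 2 := by positivity
    have := hg.measure_norm_ge_lt_top h1
    refine ne_of_lt (lt_of_le_of_lt (measure_mono ?_) this)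
    intro x hx
    have hx' : t ^ 2 ≤ g x ^ 2 := hx
    show t ^ 2 ≤ ‖g x ^ 2‖
    rw [Real.norm_eq_abs, abs_of_nonneg (sq_nonneg _)]
    exact hx'
  have h2 : volume.real {x | t < |g x|} ≤ volume.real {x | t ^ 2 ≤ g x ^ 2} := measureReal_mono hsub hfin
  have ht2 : (0 : ℝ) < t ^ 2 := by positivity
  have h3 : t ^ 2 * volume.real {x | t < |g x|} ≤ nsq g := (mul_le_mul_of_nonneg_left h2 ht2.le).trans h
  rw [one_div, ← div_eq_inv_mul, le_div_iff₀ ht2]
  linarith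

theorem LGA_Lg (lam : ℝ) (h0 : 0 < lam) (h1 : lam ≤ 1 / 2) : 1 ≤ Lg lam := by
  unfold Lg
  have : 0 ≤ Real.log (1 / lam) := by
    apply Real.log_nonneg
    rw [le_div_iff₀ h0]
    linarith
  linarith

theorem LGA_pow (r : ℕ) (hr : 10 ≤ r) : (1 : ℝ) / 2 ^ r ≤ 1 / 1000 := by
  have h : (2 : ℝ) ^ 10 ≤ 2 ^ r := pow_le_pow_right₀ (by norm_num) hr
  calc (1 : ℝ) / 2 ^ r ≤ 1 / 2 ^ 10 := one_div_le_one_div_of_le (by positivity) h
    _ ≤ 1 / 1000 := by norm_num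

theorem LGA_cell (s : ℕ) (x x' : ℝ) (h : x' ∈ cell s (ci s x)) : |x - x'| ≤ 1 / 2 ^ s := by
  have h2 : (0 : ℝ) < 2 ^ s := by positivity
  have hx1 : ((ci s x : ℤ) : ℝ) / 2 ^ s ≤ x := by
    rw [div_le_iff₀ h2, mul_comm]
    exact Int.floor_le _
  have hx2 : x < ((ci s x : ℤ) + 1 : ℝ) / 2 ^ s := by
    rw [lt_div_iff₀ h2, mul_comm]
    exact Int.lt_floor_add_one _
  have e : ((ci s x : ℤ) + 1 : ℝ) / 2 ^ s = ((ci s x : ℤ) : ℝ) / 2 ^ s + 1 / 2 ^ s := by ring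
  obtain ⟨h3, h4⟩ := h
  rw [e] at hx2 h4
  rw [abs_le]
  constructor <;> linarith

theorem LGA_Mop_add (q : ℕ) (c : ℕ → DD) (f g : ℝ → ℝ) (x : ℝ) : Mop q c (fun z => f z + g z) x = Mop q c f x + Mop q c g x := by
  unfold Mop
  rw [Finset.sum_add_distrib, add_div]

theorem LGA_Mop_bd (q : ℕ) (c : ℕ → DD) (f : ℝ → ℝ) (B : ℝ) (hB : 0 ≤ B) (h : ∀ x, |f x| ≤ B) (x : ℝ) : |Mop q c f x| ≤ B := by
  unfold Mop
  rcases Nat.eq_zero_or_pos q with hq | hq
  · subst hq; simpa using hB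
  · have hq' : (0 : ℝ) < q := by exact_mod_cast hq
    rw [abs_div, abs_of_pos hq', div_le_iff₀ hq']
    calc |∑ i ∈ Finset.range q, f (ev (c i) x)| ≤ ∑ i ∈ Finset.range q, |f (ev (c i) x)| := Finset.abs_sum_le_sum_abs _ _
      _ ≤ ∑ _i ∈ Finset.range q, B := Finset.sum_le_sum (fun i _ => h _)
      _ = B * q := by rw [Finset.sum_const, Finset.card_range, nsmul_eq_mul, mul_comm]

theorem LGA (hLMX : LMX_stmt) (hFGA : FGA_stmt) (hLJP : LJP_stmt) (hLJB : LJB_stmt) (hLJE : LJE_stmt) (hLBM : LBM_stmt)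
    (hLEA : LEA_stmt) (hLEB : LEB_stmt) (hLLV : LLV_stmt) : LGA_stmt := by
  intro th hth
  obtain ⟨K1, hK1, hMX⟩ := hLMX
  obtain ⟨K2, hK2, hFG⟩ := hFGA
  obtain ⟨-, hJP⟩ := hLJP
  obtain ⟨K3, hK3, hJB1, hJB2, -, -⟩ := hLJB
  obtain ⟨K4, hK4, hJE⟩ := hLJE
  obtain ⟨-, hB2, -, -, -, hB6⟩ := hLBM
  obtain ⟨-, -, hEA3, -, -, hEA6, hEA7⟩ := hLEA
  obtain ⟨-, hEB2, hEB3⟩ := hLEB
  -- the choice of `e`
  obtain ⟨e0, he0⟩ := exists_nat_gt ((4 * (32 + 16 * K3)) / th)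
  set e : ℕ := e0 + 1 with he
  have hpe : (4 * (32 + 16 * K3)) / th ≤ 2 ^ e := by
    have h1 : (e0 : ℝ) < 2 ^ e0 := by exact_mod_cast Nat.lt_two_pow_self
    have h2 : (2 : ℝ) ^ e0 ≤ 2 ^ e := pow_le_pow_right₀ (by norm_num) (by omega)
    linarith
  have h2e : (0 : ℝ) < 2 ^ e := by positivity
  have hesm : (32 + 16 * K3) / 2 ^ e ≤ th / 4 := by
    rw [div_le_iff₀ h2e]
    rw [div_le_iff₀ hth] at hpe
    nlinarith
  refine ⟨e, 16 / th ^ 2 * (K1 + K2 * K4), by omega, by positivity, ?_⟩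
  intro lam q c s0 N hlam hlam2 hs0 hN hSz hGAP y hy hysupp hyb
  have hLg := LGA_Lg lam hlam hlam2
  have hLLy := hLLV y hy
  -- the functions `us`
  have hus : ∀ s, s0 ≤ s → BM (us s0 s y) ∧ PA s (us s0 s y) := fun s hs => ⟨(hLLy.2.1 s0 s hs).1, (hLLy.2.1 s0 s hs).2.1⟩
  have hS3 : ∀ s, s0 ≤ s → S3 (us s0 s y) := by
    intro s hs x hx
    have h1 := (hLLy.2.2.2 s (hs0.trans hs)).2.2 hysupp x hx
    have h2 := (hLLy.2.2.2 s0 hs0).2.2 hysupp x hx
    unfold us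
    rw [h1, h2, sub_zero]
  have husb : ∀ s x, |us s0 s y x| ≤ 16 := by
    intro s x
    have h1 := hEB2 s y 2 hy hyb x
    have h2 := hEB2 s0 y 2 hy hyb x
    unfold us
    calc |Es s y x - Es s0 y x| ≤ |Es s y x| + |Es s0 y x| := abs_sub _ _
      _ ≤ 16 := by linarith
  have hsupp5 : ∀ s, s0 ≤ s → ∀ x, x ∉ Set.Icc (1 / 5 : ℝ) (4 / 5) → us s0 s y x = 0 := by
    intro s hs x hx
    apply hS3 s hs x
    intro h
    exact hx ⟨by linarith [h.1], by linarith [h.2]⟩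
  -- the functions `J`
  have hJ : ∀ s, s0 ≤ s → BM (JF s e (us s0 s y)) ∧ PA (s + e) (JF s e (us s0 s y)) ∧ (∀ x, 0 ≤ JF s e (us s0 s y) x) ∧
      ∀ x, |Es s (JF s e (us s0 s y)) x| ≤ K3 * 16 / 2 ^ e := fun s hs =>
    hJB1 s e (us s0 s y) 16 (by omega) (by omega) (hus s hs).2 (husb s) (hsupp5 s hs)
  -- the functions `W`
  have hW : ∀ s, s0 ≤ s → s ≤ N → BM (us s (s + e) (JF s e (us s0 s y))) ∧
      nsq (Mop q c (us s (s + e) (JF s e (us s0 s y)))) ≤ K2 * lam ^ 2 * Lg lam * nsq (JF s e (us s0 s y)) := by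
    intro s hs hsN
    obtain ⟨hJ1, hJ2, hJ3, hJ4⟩ := hJ s hs
    obtain ⟨hW1, hW2, hW3, hW4, hW5, hW6⟩ := (hLLV _ hJ1).2.1 s (s + e) (by omega)
    refine ⟨hW1, ?_⟩
    have hW0 : ∀ x, Es s0 (us s (s + e) (JF s e (us s0 s y))) x = 0 := by
      intro x
      have h1 := (hEA6 s0 s _ hW1 hs x).1
      rw [← h1]
      have h2 : Es s0 (Es s (us s (s + e) (JF s e (us s0 s y)))) x = Es s0 (fun _ => 0) x := by
        apply hEA7
        intro t _
        exact hW4 t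
      rw [h2]
      unfold Es
      simp
    have hWS : S2 (us s (s + e) (JF s e (us s0 s y))) := by
      have hS4 := hJB2 s e (us s0 s y) (hs0.trans hs) (hS3 s hs)
      intro x hx
      have hp1 := LGA_pow s (hs0.trans hs)
      have hp2 := LGA_pow (s + e) (by omega)
      have h1 := hEB3 s _ (23 / 100) (77 / 100) hS4 x (fun h => hx ⟨by linarith [h.1], by linarith [h.2]⟩)
      have h2 := hEB3 (s + e) _ (23 / 100) (77 / 100) hS4 x (fun h => hx ⟨by linarith [h.1], by linarith [h.2]⟩)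
      unfold us at h1 h2 ⊢
      rw [h1, h2, sub_zero]
    have h := hFG lam q c s0 (N + e) hlam hlam2 hs0 hSz hGAP _ (s + e) (by omega) hW2 hWS hW0
    refine h.trans ?_
    apply mul_le_mul_of_nonneg_left
    · rw [hW5]; exact hW6
    · positivity
  have hdec : ∀ s, s0 ≤ s → ∀ x, JF s e (us s0 s y) x = us s (s + e) (JF s e (us s0 s y)) x + Es s (JF s e (us s0 s y)) x := by
    intro s hs x
    have h := hEA3 (s + e) _ (hJ s hs).2.1 x
    have h' : us s (s + e) (JF s e (us s0 s y)) x = Es (s + e) (JF s e (us s0 s y)) x - Es s (JF s e (us s0 s y)) x := rfl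
    rw [h', h]
    ring
  -- the sets
  set G1 : Set ℝ := {x | ∃ s : ℕ, s0 ≤ s ∧ s ≤ N ∧ th / 4 < |Mop q c (us s0 s y) x|} with hG1
  set G2 : Set ℝ := ⋃ s ∈ Finset.Icc s0 N, {x | th / 4 < |Mop q c (us s (s + e) (JF s e (us s0 s y))) x|} with hG2
  have hG1' : G1 = ⋃ s ∈ Finset.Icc s0 N, {x | th / 4 < |Mop q c (us s0 s y) x|} := by
    ext x
    simp only [hG1, Set.mem_setOf_eq, Set.mem_iUnion, Finset.mem_Icc, exists_prop]
    constructor
    · rintro ⟨s, h1, h2, h3⟩; exact ⟨s, ⟨h1, h2⟩, h3⟩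
    · rintro ⟨s, ⟨h1, h2⟩, h3⟩; exact ⟨s, h1, h2, h3⟩
  have hM1 : ∀ s, s0 ≤ s → BM (Mop q c (us s0 s y)) := fun s hs => hB6 q c _ (hus s hs).1
  have hM2 : ∀ s, s0 ≤ s → s ≤ N → BM (Mop q c (us s (s + e) (JF s e (us s0 s y)))) := fun s hs hsN => hB6 q c _ (hW s hs hsN).1
  have hmeas : ∀ g : ℝ → ℝ, BM g → MeasurableSet {x | th / 4 < |g x|} := fun g hg => measurableSet_lt measurable_const hg.1.abs
  have hsub : ∀ g : ℝ → ℝ, BM g → {x | th / 4 < |g x|} ⊆ Set.Icc 0 1 := by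
    intro g hg x hx
    by_contra hcon
    have h1 := hg.2.2 x hcon
    have h2 : th / 4 < |g x| := hx
    rw [h1, abs_zero] at h2
    linarith
  have hmG1 : MeasurableSet G1 := by
    rw [hG1']
    exact Finset.measurableSet_biUnion _ (fun s hs => hmeas _ (hM1 s (Finset.mem_Icc.1 hs).1))
  have hmG2 : MeasurableSet G2 := Finset.measurableSet_biUnion _ (fun s hs => hmeas _ (hM2 s (Finset.mem_Icc.1 hs).1 (Finset.mem_Icc.1 hs).2))
  refine ⟨G1 ∪ G2, hmG1.union hmG2, ?_, ?_, ?_⟩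
  · apply Set.union_subset
    · rw [hG1']
      exact Set.iUnion₂_subset (fun s hs => hsub _ (hM1 s (Finset.mem_Icc.1 hs).1))
    · exact Set.iUnion₂_subset (fun s hs => hsub _ (hM2 s (Finset.mem_Icc.1 hs).1 (Finset.mem_Icc.1 hs).2))
  · have hnn : 0 ≤ nsq y := integral_nonneg (fun x => sq_nonneg _)
    have hv1 : volume.real G1 ≤ K1 * (lam * Lg lam) ^ 2 / (th / 4) ^ 2 * nsq y :=
      hMX lam q c s0 N hlam hlam2 hs0 hN hSz (fun s h1 h2 => hGAP s h1 (by omega)) y (th / 4) hy hysupp (by linarith)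
    have hint : ∀ g : ℝ → ℝ, BM g → Integrable (fun x => g x ^ 2) := by
      intro g hg
      obtain ⟨hgm, ⟨B, hB⟩, hg0⟩ := hg
      have hio : IntegrableOn (fun x => g x ^ 2) (Set.Icc 0 1) := by
        refine Measure.integrableOn_of_bounded (M := B ^ 2) (by simp) (hgm.pow_const 2).aestronglyMeasurable ?_
        filter_upwards with x
        rw [Real.norm_eq_abs, abs_pow]
        exact pow_le_pow_left₀ (abs_nonneg _) (hB x) 2
      rw [← integrable_indicator_iff measurableSet_Icc] at hio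
      refine hio.congr (Filter.Eventually.of_forall (fun x => ?_))
      by_cases hx : x ∈ Set.Icc (0 : ℝ) 1
      · rw [Set.indicator_of_mem hx]
      · rw [Set.indicator_of_notMem hx]
        show (0 : ℝ) = g x ^ 2
        rw [hg0 x hx]; norm_num
    have hv2 : volume.real G2 ≤ ∑ s ∈ Finset.Icc s0 N, 1 / (th / 4) ^ 2 * nsq (Mop q c (us s (s + e) (JF s e (us s0 s y)))) := by
      refine (measureReal_biUnion_finset_le _ _).trans (Finset.sum_le_sum (fun s hs => ?_))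
      exact LGA_cheb _ (hint _ (hM2 s (Finset.mem_Icc.1 hs).1 (Finset.mem_Icc.1 hs).2)) (th / 4) (by linarith)
    have hv3 : ∑ s ∈ Finset.Icc s0 N, 1 / (th / 4) ^ 2 * nsq (Mop q c (us s (s + e) (JF s e (us s0 s y)))) ≤
        1 / (th / 4) ^ 2 * (K2 * lam ^ 2 * Lg lam * (K4 / 2 ^ e * nsq y)) := by
      rw [← Finset.mul_sum]
      apply mul_le_mul_of_nonneg_left _ (by positivity)
      calc ∑ s ∈ Finset.Icc s0 N, nsq (Mop q c (us s (s + e) (JF s e (us s0 s y))))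
          ≤ ∑ s ∈ Finset.Icc s0 N, K2 * lam ^ 2 * Lg lam * nsq (JF s e (us s0 s y)) :=
            Finset.sum_le_sum (fun s hs => (hW s (Finset.mem_Icc.1 hs).1 (Finset.mem_Icc.1 hs).2).2)
        _ = K2 * lam ^ 2 * Lg lam * ∑ s ∈ Finset.Icc s0 N, nsq (JF s e (us s0 s y)) := by rw [Finset.mul_sum]
        _ ≤ K2 * lam ^ 2 * Lg lam * (K4 / 2 ^ e * nsq y) :=
            mul_le_mul_of_nonneg_left (hJE s0 N e y hs0 hN (by omega) hy hysupp) (by positivity)
    have h1e : (1 : ℝ) ≤ 2 ^ e := one_le_pow₀ (by norm_num)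
    have hv4 : K2 * lam ^ 2 * Lg lam * (K4 / 2 ^ e * nsq y) ≤ K2 * K4 * (lam * Lg lam) ^ 2 * nsq y := by
      have ha : K4 / 2 ^ e ≤ K4 := div_le_self (by linarith) h1e
      have hb : lam ^ 2 * Lg lam ≤ (lam * Lg lam) ^ 2 := by
        have : (lam * Lg lam) ^ 2 = lam ^ 2 * Lg lam * Lg lam := by ring
        rw [this]
        exact le_mul_of_one_le_right (by positivity) hLg
      calc K2 * lam ^ 2 * Lg lam * (K4 / 2 ^ e * nsq y) = K2 * (lam ^ 2 * Lg lam) * ((K4 / 2 ^ e) * nsq y) := by ring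
        _ ≤ K2 * (lam * Lg lam) ^ 2 * (K4 * nsq y) := by gcongr
        _ = K2 * K4 * (lam * Lg lam) ^ 2 * nsq y := by ring
    have hv5 : volume.real (G1 ∪ G2) ≤ volume.real G1 + volume.real G2 := measureReal_union_le _ _
    have ht4 : (th / 4) ^ 2 = th ^ 2 / 16 := by ring
    have ht : 0 < th ^ 2 := by positivity
    calc volume.real (G1 ∪ G2) ≤ K1 * (lam * Lg lam) ^ 2 / (th / 4) ^ 2 * nsq y + 1 / (th / 4) ^ 2 * (K2 * K4 * (lam * Lg lam) ^ 2 * nsq y) := by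
          refine hv5.trans (add_le_add hv1 (hv2.trans (hv3.trans ?_)))
          exact mul_le_mul_of_nonneg_left hv4 (by positivity)
      _ = 16 / th ^ 2 * (K1 + K2 * K4) * (lam * Lg lam) ^ 2 * nsq y := by
          rw [ht4]; field_simp
  · intro s x hs hsN hx x' hx'
    have hxx : |x - x'| ≤ 1 / 2 ^ (s + e + 1) := LGA_cell (s + e + 1) x x' hx'
    have h1 := hJP q s e c (us s0 s y) 16 x x' hSz (by norm_num) (hus s hs).2 (husb s) hxx
    have h2 : Mop q c (JF s e (us s0 s y)) x' = Mop q c (us s (s + e) (JF s e (us s0 s y))) x' + Mop q c (Es s (JF s e (us s0 s y))) x' := by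
      rw [← LGA_Mop_add]
      congr 1
      funext z
      exact hdec s hs z
    have h3 : |Mop q c (Es s (JF s e (us s0 s y))) x'| ≤ K3 * 16 / 2 ^ e :=
      LGA_Mop_bd q c _ _ (by positivity) (hJ s hs).2.2.2 x'
    by_contra hcon
    have hc1 : ¬ (th / 4 < |Mop q c (us s0 s y) x'|) := fun h => hcon (Or.inl ⟨s, hs, hsN, h⟩)
    have hc2 : ¬ (th / 4 < |Mop q c (us s (s + e) (JF s e (us s0 s y))) x'|) := by
      intro h
      apply hcon
      right
      rw [hG2]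
      simp only [Set.mem_iUnion]
      exact ⟨s, Finset.mem_Icc.2 ⟨hs, hsN⟩, h⟩
    push Not at hc1 hc2
    have e1 : (32 + 16 * K3) / 2 ^ e = K3 * 16 / 2 ^ e + 2 * 16 / 2 ^ e := by ring
    rw [e1] at hesm
    have h4 := abs_le.1 h3
    have h5 := abs_le.1 hc2
    have h6 : |Mop q c (us s0 s y) x| ≤ |Mop q c (us s0 s y) x'| + |Mop q c (us s0 s y) x - Mop q c (us s0 s y) x'| := by
      have := abs_sub_abs_le_abs_sub (Mop q c (us s0 s y) x) (Mop q c (us s0 s y) x')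
      linarith
    rw [h2] at h1
    linarith [h4.2, h5.2]

end Pool.Agent.helper90.DH
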