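import Pool.Agent.helper81.DH.SpecZ
import Pool.Agent.helper71.D2.BSQ

/-!
# Module `ZPN` (row `d2:ZPN`, helper93): the low parts fit into the slots `160 bs B i`
-/

set_option autoImplicit false

open Filter Topology
open scoped commutatorElement
open Pool.Agent.helper64.D2

namespace M5Z

/-- Upper growth: `b_i^40 ≤ 2^(12 i) B^40`. -/
theorem ZPN_up (B : ℕ) (hB : 30 ≤ B) (i : ℕ) : (bs B i) ^ 40 ≤ 2 ^ (12 * i) * B ^ 40 := by
  induction i with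
  | zero => simp [bs]
  | succ i ih =>
    have h := (BSQ_step B hB i).2
    have h1 : (5 * bs B (i + 1)) ^ 40 ≤ (6 * bs B i) ^ 40 := Nat.pow_le_pow_left h 40
    rw [mul_pow, mul_pow] at h1
    have h2 : (6 : ℕ) ^ 40 ≤ 5 ^ 40 * 2 ^ 12 := by norm_num
    have h3 : 5 ^ 40 * (bs B (i + 1)) ^ 40 ≤ 5 ^ 40 * (2 ^ 12 * (2 ^ (12 * i) * B ^ 40)) := by
      calc 5 ^ 40 * (bs B (i + 1)) ^ 40 ≤ 6 ^ 40 * (bs B i) ^ 40 := h1
        _ ≤ (5 ^ 40 * 2 ^ 12) * (2 ^ (12 * i) * B ^ 40) := Nat.mul_le_mul h2 ih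
        _ = 5 ^ 40 * (2 ^ 12 * (2 ^ (12 * i) * B ^ 40)) := by ring
    have h4 := Nat.le_of_mul_le_mul_left h3 (by positivity)
    calc (bs B (i + 1)) ^ 40 ≤ 2 ^ 12 * (2 ^ (12 * i) * B ^ 40) := h4
      _ = 2 ^ (12 * (i + 1)) * B ^ 40 := by ring

/-- Lower growth: `2^(22 i) B^100 ≤ b_i^100`. -/
theorem ZPN_lo (B : ℕ) (hB : 30 ≤ B) (i : ℕ) : 2 ^ (22 * i) * B ^ 100 ≤ (bs B i) ^ 100 := by
  induction i with
  | zero => simp [bs]
  | succ i ih =>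
    have h := (BSQ_step B hB i).1
    have h1 : (7 * bs B i) ^ 100 ≤ (6 * bs B (i + 1)) ^ 100 := Nat.pow_le_pow_left h 100
    rw [mul_pow, mul_pow] at h1
    have h2 : (6 : ℕ) ^ 100 * 2 ^ 22 ≤ 7 ^ 100 := by norm_num
    have h3 : 6 ^ 100 * (2 ^ (22 * (i + 1)) * B ^ 100) ≤ 6 ^ 100 * (bs B (i + 1)) ^ 100 := by
      calc 6 ^ 100 * (2 ^ (22 * (i + 1)) * B ^ 100) = (6 ^ 100 * 2 ^ 22) * (2 ^ (22 * i) * B ^ 100) := by ring
        _ ≤ 7 ^ 100 * (bs B i) ^ 100 := Nat.mul_le_mul h2 ih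
        _ ≤ 6 ^ 100 * (bs B (i + 1)) ^ 100 := h1
    exact Nat.le_of_mul_le_mul_left h3 (by positivity)

theorem ZPN_ten (i : ℕ) : (i + 1) ^ 10 ≤ 12 ^ 10 * 2 ^ i := by
  by_cases hi : i ≤ 13
  · interval_cases i <;> norm_num
  · push Not at hi
    induction i, hi using Nat.le_induction with
    | base => norm_num
    | succ i hi ih =>
      have h1 : (14 * (i + 2)) ^ 10 ≤ (15 * (i + 1)) ^ 10 := Nat.pow_le_pow_left (by omega) 10
      rw [mul_pow, mul_pow] at h1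
      have h2 : (15 : ℕ) ^ 10 ≤ 14 ^ 10 * 2 := by norm_num
      have h3 : 14 ^ 10 * (i + 2) ^ 10 ≤ 14 ^ 10 * (2 * (i + 1) ^ 10) := by
        calc 14 ^ 10 * (i + 2) ^ 10 ≤ 15 ^ 10 * (i + 1) ^ 10 := h1
          _ ≤ (14 ^ 10 * 2) * (i + 1) ^ 10 := Nat.mul_le_mul_right _ h2
          _ = 14 ^ 10 * (2 * (i + 1) ^ 10) := by ring
      have h4 := Nat.le_of_mul_le_mul_left h3 (by positivity)
      calc (i + 1 + 1) ^ 10 ≤ 2 * (i + 1) ^ 10 := h4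
        _ ≤ 2 * (12 ^ 10 * 2 ^ i) := Nat.mul_le_mul_left _ ih
        _ = 12 ^ 10 * 2 ^ (i + 1) := by ring

theorem ZPN_rn (N : ℕ) : (rn N) ^ 400 ≤ 2 ^ N := by
  unfold rn
  rw [← pow_mul]
  exact Nat.pow_le_pow_right (by norm_num) (by omega)

theorem ZPN_rn_mono (N M : ℕ) (h : N ≤ M) : rn N ≤ rn M := by
  unfold rn
  exact Nat.pow_le_pow_right (by norm_num) (Nat.div_le_div_right h)

theorem ZPN_qn_mono (N M : ℕ) (h : N ≤ M) : qn N ≤ qn M := Nat.pow_le_pow_left (ZPN_rn_mono N M h) 4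

theorem ZPN_kz (n1 : ℕ) (j : ℕ) : kz n1 j ≤ 3 + j * (qn (n1 + 2 * j) + 1) := by
  induction j with
  | zero => simp [kz]
  | succ j ih =>
    have h1 : qn (n1 + 2 * j) ≤ qn (n1 + 2 * (j + 1)) := ZPN_qn_mono _ _ (by omega)
    have h2 : kz n1 (j + 1) = kz n1 j + qn (n1 + 2 * j) + 1 := rfl
    have h3 : j * (qn (n1 + 2 * j) + 1) ≤ j * (qn (n1 + 2 * (j + 1)) + 1) := Nat.mul_le_mul_left _ (by omega)
    have h4 : (j + 1) * (qn (n1 + 2 * (j + 1)) + 1) = j * (qn (n1 + 2 * (j + 1)) + 1) + (qn (n1 + 2 * (j + 1)) + 1) := by ring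
    omega

theorem ZPN : ZPN_stmt := by
  intro c B0
  refine ⟨50 * (B0 + c + 30), ?_⟩
  intro n1 hn1
  set B : ℕ := 2 ^ (n1 / 50) with hBdef
  have hdiv : B0 + c + 30 ≤ n1 / 50 := by omega
  have hBbig : B0 + c + 30 ≤ B := hdiv.trans (Nat.lt_two_pow_self).le
  have hB30 : 30 ≤ B := by omega
  refine ⟨by omega, hB30, ?_⟩
  intro i l hl
  have hbB : B ≤ bs B i := by
    have := BSQ_add B hB30 i
    omega
  -- the upper bound of `b_i`
  have hup := ZPN_up B hB30 i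
  have hlo := ZPN_lo B hB30 i
  have hB40 : 2 * B ^ 40 ≤ 2 ^ n1 := by
    rw [hBdef, ← pow_mul]
    calc 2 * 2 ^ (n1 / 50 * 40) = 2 ^ (n1 / 50 * 40 + 1) := by ring
      _ ≤ 2 ^ n1 := Nat.pow_le_pow_right (by norm_num) (by omega)
  have hB100 : 2 ^ (n1 + 10) ≤ B ^ 100 := by
    rw [hBdef, ← pow_mul]
    exact Nat.pow_le_pow_right (by norm_num) (by omega)
  refine ⟨?_, ?_, ?_⟩
  · -- (1)
    have h1 : 2 * (bs B i) ^ 40 ≤ 2 ^ (n1 + 2 * (6 * i + l)) := by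
      calc 2 * (bs B i) ^ 40 ≤ 2 * (2 ^ (12 * i) * B ^ 40) := Nat.mul_le_mul_left _ hup
        _ = 2 ^ (12 * i) * (2 * B ^ 40) := by ring
        _ ≤ 2 ^ (12 * i) * 2 ^ n1 := Nat.mul_le_mul_left _ hB40
        _ = 2 ^ (n1 + 12 * i) := by ring
        _ ≤ 2 ^ (n1 + 2 * (6 * i + l)) := Nat.pow_le_pow_right (by norm_num) (by omega)
    have h2 : (2 : ℝ) * (bs B i : ℝ) ^ 40 ≤ 2 ^ (n1 + 2 * (6 * i + l)) := by exact_mod_cast h1
    have hbpos : (0 : ℝ) < (bs B i : ℝ) := by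
      have : 0 < bs B i := by omega
      exact_mod_cast this
    rw [div_le_div_iff₀ (by positivity) (by positivity)]
    linarith
  · -- (2)
    have h1 : (sn (n1 + 2 * (6 * i + l))) ^ 200 ≤ 2 ^ (n1 + 12 * i + 10) := by
      unfold sn
      rw [← pow_mul]
      refine (ZPN_rn _).trans (Nat.pow_le_pow_right (by norm_num) (by omega))
    have h2 : 2 ^ (n1 + 12 * i + 10) ≤ (bs B i) ^ 200 := by
      calc 2 ^ (n1 + 12 * i + 10) ≤ 2 ^ (22 * i + (n1 + 10)) := Nat.pow_le_pow_right (by norm_num) (by omega)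
        _ = 2 ^ (22 * i) * 2 ^ (n1 + 10) := by rw [pow_add]
        _ ≤ 2 ^ (22 * i) * B ^ 100 := Nat.mul_le_mul_left _ hB100
        _ ≤ (bs B i) ^ 100 := hlo
        _ ≤ (bs B i) ^ 200 := Nat.pow_le_pow_right (by omega) (by norm_num)
    have h3 : sn (n1 + 2 * (6 * i + l)) ≤ bs B i := by
      have := h1.trans h2
      exact (Nat.pow_le_pow_iff_left (by norm_num)).1 this
    omega
  · -- (3)
    set Q : ℕ := qn (n1 + 2 * (6 * i + l)) with hQdef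
    have hQ1 : 1 ≤ Q := by
      rw [hQdef]; unfold qn rn; exact Nat.one_le_pow _ _ (by positivity)
    have hk : kz n1 (6 * i + l) ≤ 3 + (6 * i + l) * (Q + 1) := ZPN_kz n1 (6 * i + l)
    have hk2 : kz n1 (6 * i + l) ≤ 13 * ((i + 1) * Q) := by
      have e1 : (6 * i + l) * (Q + 1) ≤ (6 * i + 5) * (2 * Q) := Nat.mul_le_mul (by omega) (by omega)
      nlinarith
    have hQ100 : Q ^ 100 ≤ 2 ^ (n1 + 12 * i + 10) := by
      rw [hQdef]
      unfold qn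
      rw [← pow_mul]
      refine (ZPN_rn _).trans (Nat.pow_le_pow_right (by norm_num) (by omega))
    have h10 : (i + 1) ^ 100 ≤ 12 ^ 100 * 2 ^ (10 * i) := by
      have := Nat.pow_le_pow_left (ZPN_ten i) 10
      rw [mul_pow, ← pow_mul, ← pow_mul, ← pow_mul] at this
      calc (i + 1) ^ 100 ≤ 12 ^ 100 * 2 ^ (i * 10) := this
        _ = 12 ^ 100 * 2 ^ (10 * i) := by rw [mul_comm i 10]
    have h1 : ((i + 1) * Q) ^ 100 ≤ (12 * bs B i) ^ 100 := by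
      rw [mul_pow, mul_pow]
      calc (i + 1) ^ 100 * Q ^ 100 ≤ (12 ^ 100 * 2 ^ (10 * i)) * 2 ^ (n1 + 12 * i + 10) := Nat.mul_le_mul h10 hQ100
        _ = 12 ^ 100 * (2 ^ (22 * i) * 2 ^ (n1 + 10)) := by
            rw [mul_assoc, ← pow_add, ← pow_add]; congr 2; ring
        _ ≤ 12 ^ 100 * (2 ^ (22 * i) * B ^ 100) := Nat.mul_le_mul_left _ (Nat.mul_le_mul_left _ hB100)
        _ ≤ 12 ^ 100 * (bs B i) ^ 100 := Nat.mul_le_mul_left _ hlo
    have h2 : (i + 1) * Q ≤ 12 * bs B i := (Nat.pow_le_pow_iff_left (by norm_num)).1 h1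
    omega

end M5Z
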