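import Pool.Agent.helper5.DH.Spec

set_option autoImplicit false

open Complex Metric Set Filter Topology MeasureTheory Pool.Agent.helper98.ILF Pool.Agent.helper16.Multibrot
open HY (UD T S hd UN RM VV SG Orb fz)

noncomputable section

namespace DH

theorem ARG_alg (a b : ℂ) (ha : a ≠ 0) (hb : b ≠ 0) :
    ‖(starRingEnd ℂ) a / a - (starRingEnd ℂ) b / b‖ ≤ 2 * ‖a - b‖ / ‖b‖ := by
  have h1 : (starRingEnd ℂ) a / a - (starRingEnd ℂ) b / b =
      ((starRingEnd ℂ) a * (b - a) + a * (starRingEnd ℂ) (a - b)) / (a * b) := by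
    rw [map_sub]
    field_simp
    ring
  have ha' : 0 < ‖a‖ := norm_pos_iff.2 ha
  have hb' : 0 < ‖b‖ := norm_pos_iff.2 hb
  rw [h1, norm_div, norm_mul a b, div_le_div_iff₀ (by positivity) hb']
  have h2 : ‖(starRingEnd ℂ) a * (b - a) + a * (starRingEnd ℂ) (a - b)‖ ≤ 2 * (‖a‖ * ‖a - b‖) := by
    refine (norm_add_le _ _).trans ?_
    rw [norm_mul, norm_mul, Complex.norm_conj, Complex.norm_conj, norm_sub_rev b a]
    linarith
  nlinarith [norm_nonneg (a - b)]

theorem ARG (hKO0 : V3.KO0_stmt) (hKO3 : V3.KO3_stmt) : ARG_stmt := by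
  obtain ⟨C, hC, hK⟩ := hKO3 (1 / 4) (by norm_num) (by norm_num)
  refine ⟨2 * C, by linarith, fun X hX hi y hy => ?_⟩
  have h0U : (0 : ℂ) ∈ UD := mem_ball_self one_pos
  have hyU : y ∈ UD := mem_ball_zero_iff.2 (by linarith)
  have ha := hKO0 X UD isOpen_ball hX hi y hyU
  have hb := hKO0 X UD isOpen_ball hX hi 0 h0U
  have h1 := ((hK X 0 1 one_pos hX hi).2 y (mem_ball_zero_iff.2 (by linarith))).2.2.2
  rw [sub_zero, div_one] at h1
  refine (ARG_alg _ _ ha hb).trans ?_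
  rw [div_le_iff₀ (norm_pos_iff.2 hb)]
  linarith

end DH
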