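import Pool.Agent.helper93.DH.PUL

set_option autoImplicit false

open Complex Metric Set Filter Topology MeasureTheory Pool.Agent.helper98.ILF Pool.Agent.helper16.Multibrot
open HY (UD T S hd UN RM VV SG Orb fz)

noncomputable section

namespace DH

theorem CON_vol (s : ℝ) (hs : 0 < s) : volume.real (ball (0 : ℂ) s) ≤ 4 * s ^ 2 := by
  rw [Measure.real, Complex.volume_ball, ENNReal.toReal_mul, ENNReal.toReal_pow, ENNReal.toReal_ofReal hs.le]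
  have h1 : ((NNReal.pi : ENNReal)).toReal = Real.pi := rfl
  rw [h1]
  nlinarith [Real.pi_lt_four, sq_nonneg s, Real.pi_pos]

/-- one level. -/
theorem CON_one {C₁ C₂ C₃ : ℝ} (hC₁ : 1 ≤ C₁) (hC₂ : 1 ≤ C₂) (hC₃ : 1 ≤ C₃)
    (hcvx : ∀ (X : ℂ → ℂ) (h : ℂ → ℝ) (s : ℝ), DifferentiableOn ℂ X UD → InjOn X UD →
      Measurable h → (∀ z, 0 ≤ h z ∧ h z ≤ 2) → 0 < s → s ≤ 1 / 2 →
      (∫ y in ball (0 : ℂ) s, h (X y)) * ‖deriv X 0‖ ^ 2 ≤ C₁ * ∫ z in X '' ball (0 : ℂ) s, h z ∧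
      ∫ z in X '' ball (0 : ℂ) s, h z ≤ C₁ * ‖deriv X 0‖ ^ 2 * ∫ y in ball (0 : ℂ) s, h (X y))
    (harg : ∀ (X : ℂ → ℂ), DifferentiableOn ℂ X UD → InjOn X UD → ∀ y : ℂ, ‖y‖ ≤ 1 / 2 →
      ‖(starRingEnd ℂ) (deriv X y) / deriv X y - (starRingEnd ℂ) (deriv X 0) / deriv X 0‖ ≤ C₂ * ‖y‖)
    (hko1 : ∀ X : ℂ → ℂ, DifferentiableOn ℂ X UD → InjOn X UD → ∀ x ∈ ball (0 : ℂ) (3 / 4),
      ‖X x - X 0‖ ≤ C₃ * ‖x‖ * ‖deriv X 0‖)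
    (hKO0 : V3.KO0_stmt) (μ : ℂ → ℂ) (x : ℂ) (hμ : Measurable μ) (hμ1 : ∀ z, ‖μ z‖ ≤ 1) (hμx : ‖μ x‖ = 1)
    (ε₁ δ₁ K₂ s : ℝ) (hs : 0 < s) (hs2 : s ≤ 1 / 2)
    (hden : ∀ (p : ℂ) (s : ℝ), 0 < s → s < δ₁ → ‖x - p‖ ≤ K₂ * s → ∫ z in ball p s, ‖μ z - μ x‖ ≤ ε₁ * s ^ 2)
    (hK₂ : 0 < K₂) (X Y : ℂ → ℂ) (hX : DifferentiableOn ℂ X UD) (hXi : InjOn X UD) (hY : DifferentiableOn ℂ Y UD)
    (hYi : InjOn Y UD) (hXx : ‖X 0 - x‖ ≤ K₂ * ‖deriv X 0‖) (hXs : C₃ * ‖deriv X 0‖ < δ₁)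
    (hae : ∀ᵐ y : ℂ, y ∈ UD → μ (X y) * (starRingEnd ℂ) (deriv X y) / deriv X y =
      μ (Y y) * (starRingEnd ℂ) (deriv Y y) / deriv Y y) :
    ∃ e : ℂ, ‖e‖ = 1 ∧ ∫ z in Y '' ball (0 : ℂ) s, ‖μ z - e‖ ≤
      C₁ * ‖deriv Y 0‖ ^ 2 * (C₁ * C₃ ^ 2 * ε₁ + 8 * C₂ * s ^ 3) := by
  have h0U : (0 : ℂ) ∈ UD := mem_ball_self one_pos
  have hsU : ball (0 : ℂ) s ⊆ UD := ball_subset_ball (by linarith)
  have hX0 := hKO0 X UD isOpen_ball hX hXi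
  have hY0 := hKO0 Y UD isOpen_ball hY hYi
  obtain ⟨aX, haX⟩ : ∃ aX : ℂ, aX = (starRingEnd ℂ) (deriv X 0) / deriv X 0 := ⟨_, rfl⟩
  obtain ⟨aY, haY⟩ : ∃ aY : ℂ, aY = (starRingEnd ℂ) (deriv Y 0) / deriv Y 0 := ⟨_, rfl⟩
  have haX1 : ‖aX‖ = 1 := by rw [haX]; exact PUL_unit _ (hX0 0 h0U)
  have haY1 : ‖aY‖ = 1 := by rw [haY]; exact PUL_unit _ (hY0 0 h0U)
  have haY0 : aY ≠ 0 := norm_ne_zero_iff.1 (by rw [haY1]; norm_num)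
  obtain ⟨e, he⟩ : ∃ e : ℂ, e = μ x * aX / aY := ⟨_, rfl⟩
  have he1 : ‖e‖ = 1 := by rw [he, norm_div, norm_mul, haX1, haY1, hμx]; norm_num
  have heY : e * aY = μ x * aX := by rw [he]; field_simp
  refine ⟨e, he1, ?_⟩
  have hh : ∀ e : ℂ, ‖e‖ = 1 → Measurable (fun z => ‖μ z - e‖) ∧ ∀ z, 0 ≤ ‖μ z - e‖ ∧ ‖μ z - e‖ ≤ 2 := by
    intro e he
    refine ⟨(hμ.sub_const e).norm, fun z => ⟨norm_nonneg _, (norm_sub_le _ _).trans ?_⟩⟩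
    rw [he]
    linarith [hμ1 z]
  obtain ⟨hm1, hb1⟩ := hh (μ x) hμx
  obtain ⟨hm2, hb2⟩ := hh e he1
  have hd0 : 0 < ‖deriv X 0‖ := norm_pos_iff.2 (hX0 0 h0U)
  -- the integral of `μ ∘ X - μ x`
  have A1 := (hcvx X (fun z => ‖μ z - μ x‖) s hX hXi hm1 hb1 hs hs2).1
  have hsub : X '' ball (0 : ℂ) s ⊆ ball (X 0) (C₃ * ‖deriv X 0‖) := by
    rintro _ ⟨y, hy, rfl⟩
    have hy1 : ‖y‖ < s := mem_ball_zero_iff.1 hy
    have h2 := hko1 X hX hXi y (mem_ball_zero_iff.2 (by linarith))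
    rw [mem_ball, dist_eq_norm]
    calc ‖X y - X 0‖ ≤ C₃ * ‖y‖ * ‖deriv X 0‖ := h2
      _ < C₃ * 1 * ‖deriv X 0‖ := by
        apply mul_lt_mul_of_pos_right _ hd0
        exact mul_lt_mul_of_pos_left (by linarith) (by linarith)
      _ = C₃ * ‖deriv X 0‖ := by ring
  have hint : IntegrableOn (fun z => ‖μ z - μ x‖) (ball (X 0) (C₃ * ‖deriv X 0‖)) :=
    PUL_int (g := fun z => z) hm1 hb1 measurableSet_ball measure_ball_lt_top.ne continuousOn_id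
  have A2 : ∫ z in X '' ball (0 : ℂ) s, ‖μ z - μ x‖ ≤ ∫ z in ball (X 0) (C₃ * ‖deriv X 0‖), ‖μ z - μ x‖ :=
    setIntegral_mono_set hint (Filter.Eventually.of_forall fun z => (hb1 z).1) hsub.eventuallyLE
  have A3 := hden (X 0) (C₃ * ‖deriv X 0‖) (by positivity) hXs (by
    rw [norm_sub_rev]
    refine hXx.trans ?_
    have : ‖deriv X 0‖ ≤ C₃ * ‖deriv X 0‖ := le_mul_of_one_le_left hd0.le hC₃
    exact mul_le_mul_of_nonneg_left this hK₂.le)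
  have A4 : ∫ y in ball (0 : ℂ) s, ‖μ (X y) - μ x‖ ≤ C₁ * C₃ ^ 2 * ε₁ := by
    have h1 : (∫ y in ball (0 : ℂ) s, ‖μ (X y) - μ x‖) * ‖deriv X 0‖ ^ 2 ≤ (C₁ * C₃ ^ 2 * ε₁) * ‖deriv X 0‖ ^ 2 := by
      calc (∫ y in ball (0 : ℂ) s, ‖μ (X y) - μ x‖) * ‖deriv X 0‖ ^ 2
          ≤ C₁ * ∫ z in X '' ball (0 : ℂ) s, ‖μ z - μ x‖ := A1
        _ ≤ C₁ * (ε₁ * (C₃ * ‖deriv X 0‖) ^ 2) := mul_le_mul_of_nonneg_left (A2.trans A3) (by linarith)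
        _ = _ := by ring
    exact le_of_mul_le_mul_right h1 (by positivity)
  -- pointwise
  have hpt : ∀ᵐ y : ℂ, y ∈ ball (0 : ℂ) s → ‖μ (Y y) - e‖ ≤ ‖μ (X y) - μ x‖ + 2 * C₂ * s := by
    filter_upwards [hae] with y hy hys
    have hyU := hsU hys
    have hy1 : ‖y‖ < s := mem_ball_zero_iff.1 hys
    have e1 := hy hyU
    have h1 := PUL_pt (μ (X y)) (deriv X y) aX (μ x) (C₂ * ‖y‖) (hX0 y hyU) hμx (by
      rw [haX]; exact harg X hX hXi y (by linarith))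
    have h2 := harg Y hY hYi y (by linarith)
    rw [← haY] at h2
    obtain ⟨w, hw⟩ : ∃ w : ℂ, w = (starRingEnd ℂ) (deriv Y y) / deriv Y y := ⟨_, rfl⟩
    have hw1 : ‖w‖ = 1 := by rw [hw]; exact PUL_unit _ (hY0 y hyU)
    rw [← hw] at h2
    have h3 : ‖μ (Y y) - e‖ = ‖(μ (Y y) * w - μ x * aX) + e * (aY - w)‖ := by
      have h4 : (μ (Y y) * w - μ x * aX) + e * (aY - w) = (μ (Y y) - e) * w := by
        rw [← heY]; ring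
      rw [h4, norm_mul, hw1, mul_one]
    rw [h3]
    refine (norm_add_le _ _).trans ?_
    rw [norm_mul, he1, one_mul, norm_sub_rev aY w]
    have h5 : μ (Y y) * w = μ (X y) * (starRingEnd ℂ) (deriv X y) / deriv X y := by
      rw [e1, hw, mul_div_assoc]
    rw [h5]
    have h6 : C₂ * ‖y‖ ≤ C₂ * s := mul_le_mul_of_nonneg_left hy1.le (by linarith)
    linarith
  have hBm : MeasurableSet (ball (0 : ℂ) s) := measurableSet_ball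
  have hv : volume (ball (0 : ℂ) s) ≠ ⊤ := measure_ball_lt_top.ne
  have J1 := PUL_int hm1 hb1 hBm hv (hX.continuousOn.mono hsU)
  have J2 := PUL_int hm2 hb2 hBm hv (hY.continuousOn.mono hsU)
  have J3 : IntegrableOn (fun _ : ℂ => 2 * C₂ * s) (ball (0 : ℂ) s) := integrableOn_const hv
  have A5 : ∫ y in ball (0 : ℂ) s, ‖μ (Y y) - e‖ ≤ ∫ y in ball (0 : ℂ) s, (‖μ (X y) - μ x‖ + 2 * C₂ * s) := by
    refine integral_mono_ae J2 (J1.add J3) ?_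
    rw [EventuallyLE, ae_restrict_iff' hBm]
    exact hpt
  rw [integral_add J1 J3, setIntegral_const, smul_eq_mul] at A5
  have A6 : volume.real (ball (0 : ℂ) s) * (2 * C₂ * s) ≤ 8 * C₂ * s ^ 3 := by
    have h1 := CON_vol s hs
    have h2 : volume.real (ball (0 : ℂ) s) * (2 * C₂ * s) ≤ 4 * s ^ 2 * (2 * C₂ * s) :=
      mul_le_mul_of_nonneg_right h1 (by positivity)
    refine h2.trans (le_of_eq (by ring))
  have A7 := (hcvx Y (fun z => ‖μ z - e‖) s hY hYi hm2 hb2 hs hs2).2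
  refine A7.trans ?_
  exact mul_le_mul_of_nonneg_left (by linarith) (by positivity)

theorem CON (hCVX : CVX_stmt) (hARG : ARG_stmt) (hNLI : NLI_stmt) (hINR : INR_stmt) (hSCL : NZ.SCL_stmt)
    (hKO0 : V3.KO0_stmt) (hKO1 : V3.KO1_stmt) (hKO3 : V3.KO3_stmt) : CON_stmt := by
  intro n c Φ b μ x c₂ K₂ hT hint hμ hμ1 hμx hinv hden hc₂ hc₂' hK₂ hB K ε hK hε
  obtain ⟨C₁, hC₁, hcvx⟩ := hCVX
  obtain ⟨C₂, hC₂, harg⟩ := hARG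
  obtain ⟨C₃, hC₃, hko⟩ := hKO3 (1 / 4) (by norm_num) (by norm_num)
  obtain ⟨C₄, hC₄, hk1⟩ := hKO1
  have hn := hT.hn
  obtain ⟨κ, hκ0, hκ1, hscl⟩ := hSCL n hn
  have h0U : (0 : ℂ) ∈ UD := mem_ball_self one_pos
  have hko1 : ∀ X : ℂ → ℂ, DifferentiableOn ℂ X UD → InjOn X UD → ∀ x ∈ ball (0 : ℂ) (3 / 4),
      ‖X x - X 0‖ ≤ C₃ * ‖x‖ * ‖deriv X 0‖ := by
    intro X hX hXi x hx
    have := ((hko X 0 1 one_pos hX hXi).2 x (by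
      rw [mul_one]; norm_num; exact mem_ball_zero_iff.1 hx)).2.2.1
    rwa [sub_zero] at this
  -- constants
  obtain ⟨B, hBd⟩ : ∃ B : ℝ, B = C₁ * (C₄ * K / κ) ^ 2 := ⟨_, rfl⟩
  have hB0 : 0 < B := by rw [hBd]; positivity
  obtain ⟨s, hs⟩ : ∃ s : ℝ, s = min (1 / 2) (ε / (2 * (8 * B * C₂))) := ⟨_, rfl⟩
  have hs0 : 0 < s := by rw [hs]; positivity
  have hs2 : s ≤ 1 / 2 := by rw [hs]; exact min_le_left _ _
  have hs3 : 8 * B * C₂ * s ≤ ε / 2 := by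
    have h1 : s ≤ ε / (2 * (8 * B * C₂)) := by rw [hs]; exact min_le_right _ _
    calc 8 * B * C₂ * s ≤ 8 * B * C₂ * (ε / (2 * (8 * B * C₂))) := mul_le_mul_of_nonneg_left h1 (by positivity)
      _ = ε / 2 := by field_simp
  obtain ⟨ε₁, hε₁⟩ : ∃ ε₁ : ℝ, ε₁ = ε * s ^ 2 / (2 * B * (C₁ * C₃ ^ 2)) := ⟨_, rfl⟩
  have hε₁0 : 0 < ε₁ := by rw [hε₁]; positivity
  have hε₁' : B * (C₁ * C₃ ^ 2 * ε₁) / s ^ 2 = ε / 2 := by rw [hε₁]; field_simp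
  obtain ⟨δ₁, hδ₁, hden'⟩ := hden K₂ ε₁ hε₁0
  obtain ⟨δ₂, hδ₂⟩ : ∃ δ₂ : ℝ, δ₂ = δ₁ / C₃ := ⟨_, rfl⟩
  have hδ₂0 : 0 < δ₂ := by rw [hδ₂]; positivity
  obtain ⟨k₀, hk₀⟩ := hINR n c hn hT.hc hint (δ₂ / C₄) (by positivity)
  obtain ⟨ρ₀, hρ₀, hscl'⟩ := hscl c hT.hc hint Φ hT.rm k₀
  refine ⟨ρ₀ * (s * c₂) / (C₄ * K), by positivity, fun σ hσ0 hσ => ?_⟩
  obtain ⟨ρ, hρ⟩ : ∃ ρ : ℝ, ρ = C₄ * K * σ / (s * c₂) := ⟨_, rfl⟩
  have hρ0 : 0 < ρ := by rw [hρ]; positivity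
  have hρρ : ρ < ρ₀ := by
    rw [hρ, div_lt_iff₀ (by positivity)]
    rw [lt_div_iff₀ (by positivity)] at hσ
    linarith
  obtain ⟨k, hk, hk1', hk2⟩ := hscl' ρ hρ0 hρρ
  obtain ⟨t, X, hX, hXi, hXf, hXV, hXx⟩ := hB k
  obtain ⟨Y, hYd⟩ : ∃ Y : ℂ → ℂ, Y = fun y => Φ k (c₂ * y) := ⟨_, rfl⟩
  have hcU : ∀ y ∈ UD, (c₂ : ℂ) * y ∈ UD := by
    intro y hy
    have hy1 := mem_ball_zero_iff.1 hy
    rw [UD, mem_ball_zero_iff, norm_mul, Complex.norm_real, Real.norm_of_nonneg hc₂.le]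
    nlinarith [norm_nonneg y]
  have hc₂c : (c₂ : ℂ) ≠ 0 := by exact_mod_cast hc₂.ne'
  have hY : DifferentiableOn ℂ Y UD := by
    rw [hYd]; exact (hT.rm k).dif.comp (by fun_prop) hcU
  have hYi : InjOn Y UD := by
    rw [hYd]
    intro y hy z hz hyz
    exact mul_left_cancel₀ hc₂c ((hT.rm k).inj (hcU y hy) (hcU z hz) hyz)
  have hY0 : Y 0 = 0 := by rw [hYd]; simp [(hT.rm k).val]
  have hYde : ‖deriv Y 0‖ = c₂ * ‖deriv (Φ k) 0‖ := by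
    have h1 : HasDerivAt (Φ k) (deriv (Φ k) 0) ((c₂ : ℂ) * 0) := by
      rw [mul_zero]; exact ((hT.rm k).dif.differentiableAt (isOpen_ball.mem_nhds h0U)).hasDerivAt
    have h2 : HasDerivAt (fun y : ℂ => (c₂ : ℂ) * y) (c₂ : ℂ) 0 := by simpa using (hasDerivAt_id (0 : ℂ)).const_mul (c₂ : ℂ)
    have h3 : HasDerivAt Y (deriv (Φ k) 0 * c₂) 0 := by rw [hYd]; exact h1.comp (0 : ℂ) h2
    rw [h3.deriv, norm_mul, Complex.norm_real, Real.norm_of_nonneg hc₂.le, mul_comm]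
  -- `X' 0` is small
  have hX'0 : C₃ * ‖deriv X 0‖ < δ₁ := by
    by_contra hcon
    push Not at hcon
    have h1 : δ₂ ≤ ‖deriv X 0‖ := by
      rw [hδ₂, div_le_iff₀ (by linarith)]; linarith
    refine hk₀ (k + t) (by omega) (X 0) ?_
    refine (ball_subset_ball ?_).trans ((hk1 X 0 1 one_pos hX hXi).trans ?_)
    · rw [one_mul]; exact div_le_div_of_nonneg_right h1 (by linarith)
    · rintro _ ⟨y, hy, rfl⟩; exact hXV y hy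
  have hae : ∀ᵐ y : ℂ, y ∈ UD → μ (X y) * (starRingEnd ℂ) (deriv X y) / deriv X y =
      μ (Y y) * (starRingEnd ℂ) (deriv Y y) / deriv Y y := by
    filter_upwards [hNLI n c μ hn hμ hinv t X hX hXi] with y hy hyU
    have h1 : (fun x => (fz n c)^[t] (X x)) =ᶠ[𝓝 y] Y := by
      filter_upwards [isOpen_ball.mem_nhds hyU] with z hz
      rw [hYd]; exact hXf z hz
    rw [hy hyU, h1.deriv_eq, hXf y hyU, hYd]
  obtain ⟨e, he1, he2⟩ := CON_one hC₁ hC₂ hC₃ hcvx harg hko1 hKO0 μ x hμ hμ1 hμx ε₁ δ₁ K₂ s hs0 hs2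
    (fun p s h1 h2 h3 => hden' p s h1 h2 h3) hK₂ X Y hX hXi hY hYi hXx hX'0 hae
  refine ⟨e, he1, ?_⟩
  have hsU : ball (0 : ℂ) s ⊆ UD := ball_subset_ball (by linarith)
  have hcov : ball (0 : ℂ) (K * σ) ⊆ Y '' ball (0 : ℂ) s := by
    have h1 := hk1 Y 0 s hs0 (hY.mono hsU) (hYi.mono hsU)
    rw [hY0, hYde] at h1
    refine (ball_subset_ball ?_).trans h1
    rw [le_div_iff₀ (by linarith)]
    have h2 : ρ * (s * c₂) = C₄ * K * σ := by rw [hρ]; field_simp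
    have h3 : ρ * (s * c₂) ≤ ‖deriv (Φ k) 0‖ * (s * c₂) := mul_le_mul_of_nonneg_right hk1' (by positivity)
    linarith
  have hmh : Measurable (fun z => ‖μ z - e‖) := (hμ.sub_const e).norm
  have hbh : ∀ z, 0 ≤ ‖μ z - e‖ ∧ ‖μ z - e‖ ≤ 2 := fun z => ⟨norm_nonneg _, (norm_sub_le _ _).trans (by
    rw [he1]; linarith [hμ1 z])⟩
  have hYd0 : 0 < ‖deriv Y 0‖ := norm_pos_iff.2 (hKO0 Y UD isOpen_ball hY hYi 0 h0U)
  have hbig : Y '' ball (0 : ℂ) s ⊆ ball 0 (C₃ * ‖deriv Y 0‖) := by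
    rintro _ ⟨y, hy, rfl⟩
    have hy1 : ‖y‖ < s := mem_ball_zero_iff.1 hy
    have h2 := hko1 Y hY hYi y (mem_ball_zero_iff.2 (by linarith))
    rw [hY0, sub_zero] at h2
    rw [mem_ball_zero_iff]
    calc ‖Y y‖ ≤ C₃ * ‖y‖ * ‖deriv Y 0‖ := h2
      _ < C₃ * 1 * ‖deriv Y 0‖ := by
        apply mul_lt_mul_of_pos_right _ hYd0
        exact mul_lt_mul_of_pos_left (by linarith) (by linarith)
      _ = C₃ * ‖deriv Y 0‖ := by ring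
  have hintY : IntegrableOn (fun z => ‖μ z - e‖) (Y '' ball (0 : ℂ) s) :=
    (PUL_int (g := fun z => z) hmh hbh measurableSet_ball measure_ball_lt_top.ne continuousOn_id).mono_set hbig
  have F1 : ∫ z in ball (0 : ℂ) (K * σ), ‖μ z - e‖ ≤ ∫ z in Y '' ball (0 : ℂ) s, ‖μ z - e‖ :=
    setIntegral_mono_set hintY (Filter.Eventually.of_forall fun z => (hbh z).1) hcov.eventuallyLE
  have F2 : ‖deriv Y 0‖ ≤ C₄ * K * σ / (s * κ) := by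
    rw [hYde]
    calc c₂ * ‖deriv (Φ k) 0‖ ≤ c₂ * (ρ / κ) := mul_le_mul_of_nonneg_left hk2 hc₂.le
      _ = C₄ * K * σ / (s * κ) := by rw [hρ]; field_simp
  have F3 : ‖deriv Y 0‖ ^ 2 ≤ (C₄ * K * σ / (s * κ)) ^ 2 := pow_le_pow_left₀ hYd0.le F2 2
  have F4 : 0 ≤ C₁ * C₃ ^ 2 * ε₁ + 8 * C₂ * s ^ 3 := by positivity
  calc ∫ z in ball (0 : ℂ) (K * σ), ‖μ z - e‖ ≤ C₁ * ‖deriv Y 0‖ ^ 2 * (C₁ * C₃ ^ 2 * ε₁ + 8 * C₂ * s ^ 3) := F1.trans he2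
    _ ≤ C₁ * (C₄ * K * σ / (s * κ)) ^ 2 * (C₁ * C₃ ^ 2 * ε₁ + 8 * C₂ * s ^ 3) :=
        mul_le_mul_of_nonneg_right (mul_le_mul_of_nonneg_left F3 (by linarith)) F4
    _ = (B * (C₁ * C₃ ^ 2 * ε₁) / s ^ 2 + 8 * B * C₂ * s) * σ ^ 2 := by rw [hBd]; field_simp
    _ ≤ (ε / 2 + ε / 2) * σ ^ 2 := mul_le_mul_of_nonneg_right (by linarith) (by positivity)
    _ = ε * σ ^ 2 := by ring

end DH
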