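import Pool.Agent.helper52.HY.Spec

/-!
# Project dh: / ed:, module MPR: the maximum principle of the closing argument (helper5, section 3)

Self-contained: functions on the unit disc only. Author: helper93.
-/

set_option autoImplicit false

open Complex Metric Set Filter Topology MeasureTheory
open HY (UD T S)

noncomputable section

namespace DH

/-- MPR: the maximum principle. `s` = all relevant times, `s'` = the times with a value near `0`, `α` = the weights of `u_*`.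
All junk values `log 0 = 0` are avoided by the conditions `b i w ≠ 0`. -/
def MPR_stmt : Prop := ∀ (F : ℂ → ℂ) (b : ℕ → ℂ → ℂ) (s s' : Finset ℕ) (α : ℕ → ℝ) (A r ε R th : ℝ), s' ⊆ s →
  DifferentiableOn ℂ F UD → (∀ i ∈ s, DifferentiableOn ℂ (b i) UD ∧ MapsTo (b i) UD UD ∧ b i 0 ≠ 0 ∧ 0 < α i) →
  0 < A → 0 < r → r < 1 → 0 < ε → 0 < th → R ≤ 1 → ε < ‖F 0‖ → ‖F 0‖ < R →
  ∑ i ∈ s, α i * (-Real.log ‖b i 0‖) < 1 →
  (∀ w, ‖w‖ < r → ε < ‖F w‖ → ‖F w‖ < R → (∀ i ∈ s, b i w ≠ 0) → ∑ i ∈ s, α i * (-Real.log ‖b i w‖) < 1 →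
    1 < A * (‖deriv F w‖ * (1 - ‖w‖ ^ 2)) ^ 2) →
  (∀ w, ‖w‖ ≤ r → ‖F w‖ = ε → (∀ i ∈ s, b i w ≠ 0) → th ≤ ∑ i ∈ s', -Real.log ‖b i w‖) →
  Real.log (R / ‖F 0‖) ≤ Real.log (R / ε) *
    ((∑ i ∈ s', -Real.log ‖b i 0‖) / th + ∑ i ∈ s, α i * (-Real.log ‖b i 0‖) + A / Real.log (1 / (1 - r ^ 2)))

/-! ## The local statement -/

theorem MPR_sq (a z : ℂ) : ‖z‖ ^ 2 = ‖z - a‖ ^ 2 + 2 * ((starRingEnd ℂ) a * (z - a)).re + ‖a‖ ^ 2 := by
  rw [Complex.sq_norm, Complex.sq_norm, Complex.sq_norm, Complex.normSq_apply, Complex.normSq_apply, Complex.normSq_apply]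
  simp only [Complex.sub_re, Complex.sub_im, Complex.mul_re, Complex.conj_re, Complex.conj_im]
  ring

theorem MPR_log {x : ℝ} (hx : 0 ≤ x) (hx' : x ≤ 1 / 2) : -x - 2 * x ^ 2 ≤ Real.log (1 - x) := by
  have hx0 := hx
  have h1 : 0 < 1 - x := by linarith
  have h2 := Real.one_sub_inv_le_log_of_pos h1
  refine le_trans ?_ h2
  have h3 : 1 - (1 - x)⁻¹ = -x / (1 - x) := by
    field_simp
    ring
  rw [h3, le_div_iff₀ h1]
  nlinarith [mul_nonneg hx hx, mul_nonneg (mul_nonneg hx hx) hx]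

theorem MPR_loc0 (G F : ℂ → ℂ) (β A ρ : ℝ) (hρ : 0 < ρ) (hG : DifferentiableOn ℂ G (ball 0 ρ))
    (hF : DifferentiableOn ℂ F (ball 0 ρ)) (hβ : 0 < β) (hA : 0 < A) (hd : 1 < A * ‖deriv F 0‖ ^ 2) :
    ∃ z ∈ ball (0 : ℂ) ρ, (G 0).re + β * (A * ‖F 0‖ ^ 2) <
      (G z).re + β * (A * ‖F z‖ ^ 2 + Real.log (1 - ‖z‖ ^ 2)) := by
  by_contra hcon
  push Not at hcon
  have h1 : Real.sqrt (1 / A) < ‖deriv F 0‖ := by
    rw [Real.sqrt_lt' (by
      by_contra h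
      have h0 : ‖deriv F 0‖ = 0 := le_antisymm (not_lt.1 h) (norm_nonneg _)
      rw [h0] at hd
      norm_num at hd), div_lt_iff₀ hA]
    linarith
  obtain ⟨m, hm1, hm2⟩ := exists_between h1
  have hm0 : 0 < m := lt_of_le_of_lt (Real.sqrt_nonneg _) hm1
  have hm3 : 1 < A * m ^ 2 := by
    have h2 : 1 / A < m ^ 2 := (Real.sqrt_lt' hm0).1 hm1
    rw [div_lt_iff₀ hA] at h2
    linarith
  have hFd : HasDerivAt F (deriv F 0) 0 :=
    (hF.differentiableAt (isOpen_ball.mem_nhds (mem_ball_self hρ))).hasDerivAt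
  have h3 : ∀ᶠ z in 𝓝 (0 : ℂ), m * ‖z‖ ≤ ‖F z - F 0‖ := by
    have h4 := hFd.isLittleO.def (sub_pos.2 hm2)
    filter_upwards [h4] with z hz
    rw [sub_zero, smul_eq_mul] at hz
    have h5 : ‖z * deriv F 0‖ ≤ ‖F z - F 0‖ + ‖F z - F 0 - z * deriv F 0‖ := by
      have := norm_sub_le (F z - F 0) (F z - F 0 - z * deriv F 0)
      rw [sub_sub_cancel] at this
      exact this
    rw [norm_mul] at h5
    nlinarith [norm_nonneg z]
  obtain ⟨δ, hδ, hδ'⟩ := Metric.eventually_nhds_iff_ball.1 h3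
  obtain ⟨κ, hκ⟩ : ∃ κ : ℝ, κ = A * m ^ 2 - 1 := ⟨_, rfl⟩
  have hκ0 : 0 < κ := by rw [hκ]; linarith
  obtain ⟨t, ht0, ht1, ht2, ht3, ht4⟩ : ∃ t : ℝ, 0 < t ∧ t < ρ ∧ t < δ ∧ t ^ 2 ≤ 1 / 2 ∧ 2 * t ^ 2 < κ := by
    refine ⟨min (min (ρ / 2) (δ / 2)) (min (1 / 2) (κ / 2)), ?_, ?_, ?_, ?_, ?_⟩
    · positivity
    · have := (min_le_left (min (ρ / 2) (δ / 2)) (min (1 / 2) (κ / 2))).trans (min_le_left _ _)
      linarith
    · have := (min_le_left (min (ρ / 2) (δ / 2)) (min (1 / 2) (κ / 2))).trans (min_le_right _ _)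
      linarith
    · have h5 := (min_le_right (min (ρ / 2) (δ / 2)) (min (1 / 2) (κ / 2))).trans (min_le_left _ _)
      have h6 : 0 < min (min (ρ / 2) (δ / 2)) (min (1 / 2) (κ / 2)) := by positivity
      nlinarith
    · have h5 := (min_le_right (min (ρ / 2) (δ / 2)) (min (1 / 2) (κ / 2))).trans (min_le_left _ _)
      have h7 := (min_le_right (min (ρ / 2) (δ / 2)) (min (1 / 2) (κ / 2))).trans (min_le_right _ _)
      have h6 : 0 < min (min (ρ / 2) (δ / 2)) (min (1 / 2) (κ / 2)) := by positivity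
      nlinarith
  have hsub : closedBall (0 : ℂ) t ⊆ ball 0 ρ := closedBall_subset_ball ht1
  obtain ⟨J, hJ⟩ : ∃ J : ℂ → ℂ, J = fun z => G z + ((2 * β * A : ℝ) : ℂ) * ((starRingEnd ℂ) (F 0) * (F z - F 0)) :=
    ⟨_, rfl⟩
  have hJd : DifferentiableOn ℂ J (ball 0 ρ) := by
    rw [hJ]
    exact hG.add ((((hF.sub_const _).const_mul _)).const_mul _)
  have hJ0 : (J 0).re = (G 0).re := by rw [hJ]; simp
  have hJz : ∀ z, (J z).re = (G z).re + 2 * β * A * ((starRingEnd ℂ) (F 0) * (F z - F 0)).re := by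
    intro z
    rw [hJ]
    simp only [Complex.add_re, Complex.re_ofReal_mul]
  have hfr : ∀ z ∈ frontier (ball (0 : ℂ) t), ‖Complex.exp (J z)‖ ≤
      Real.exp ((J 0).re - β * ((κ - 2 * t ^ 2) * t ^ 2)) := by
    intro z hz
    rw [frontier_ball _ ht0.ne', mem_sphere_zero_iff_norm] at hz
    rw [Complex.norm_exp, Real.exp_le_exp]
    have h5 := hcon z (hsub (by rw [mem_closedBall_zero_iff, hz]))
    have h6 := hδ' z (by rw [mem_ball_zero_iff, hz]; exact ht2)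
    have h7 := MPR_sq (F 0) (F z)
    have h8 := MPR_log (sq_nonneg t) ht3
    rw [hz] at h5 h6
    have h9 : m ^ 2 * t ^ 2 ≤ ‖F z - F 0‖ ^ 2 := by
      have : (m * t) ^ 2 ≤ ‖F z - F 0‖ ^ 2 := pow_le_pow_left₀ (by positivity) h6 2
      linarith [mul_pow m t 2]
    rw [hJz, hJ0]
    have h10 : A * (m ^ 2 * t ^ 2) ≤ A * ‖F z - F 0‖ ^ 2 := mul_le_mul_of_nonneg_left h9 hA.le
    have h11 : A * ‖F 0‖ ^ 2 + (κ - 2 * t ^ 2) * t ^ 2 + 2 * A * ((starRingEnd ℂ) (F 0) * (F z - F 0)).re ≤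
        A * ‖F z‖ ^ 2 + Real.log (1 - t ^ 2) := by
      rw [h7, hκ]
      nlinarith
    have h12 := mul_le_mul_of_nonneg_left h11 hβ.le
    nlinarith
  have hmax := Complex.norm_le_of_forall_mem_frontier_norm_le (U := ball (0 : ℂ) t) isBounded_ball
    (f := fun z => Complex.exp (J z)) (((hJd.mono hsub).cexp).diffContOnCl_ball (Subset.refl _)) hfr
    (subset_closure (mem_ball_self ht0))
  rw [Complex.norm_exp, Real.exp_le_exp] at hmax
  have h13 : 0 < β * ((κ - 2 * t ^ 2) * t ^ 2) := by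
    have : 0 < κ - 2 * t ^ 2 := by linarith
    positivity
  linarith

theorem MPR_loc (hMOB : HY.MOB_stmt) (p : ℂ) (hp : p ∈ UD) (G F : ℂ → ℂ) (β A ρ : ℝ) (hρ : 0 < ρ)
    (hG : DifferentiableOn ℂ G (ball p ρ)) (hF : DifferentiableOn ℂ F (ball p ρ)) (hβ : 0 < β) (hA : 0 < A)
    (hd : 1 < A * (‖deriv F p‖ * (1 - ‖p‖ ^ 2)) ^ 2) :
    ∃ w ∈ ball p ρ, (G p).re + β * (A * ‖F p‖ ^ 2 + Real.log (1 - ‖p‖ ^ 2)) <
      (G w).re + β * (A * ‖F w‖ ^ 2 + Real.log (1 - ‖w‖ ^ 2)) := by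
  obtain ⟨hm, -, hS0, -, hSd, -, -, hN, -, -, hSd0, -⟩ := hMOB p hp
  have h0U : (0 : ℂ) ∈ UD := mem_ball_self one_pos
  have hSc : ContinuousAt (S p) 0 := (hSd.differentiableAt (isOpen_ball.mem_nhds h0U)).continuousAt
  have h1 : ∀ᶠ z in 𝓝 (0 : ℂ), S p z ∈ ball p ρ := by
    apply hSc.eventually_mem
    rw [hS0]
    exact isOpen_ball.mem_nhds (mem_ball_self hρ)
  obtain ⟨ρ', hρ', h2⟩ := Metric.eventually_nhds_iff_ball.1 (h1.and (isOpen_ball.mem_nhds h0U : UD ∈ 𝓝 (0 : ℂ)))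
  have hSmap : MapsTo (S p) (ball 0 ρ') (ball p ρ) := fun z hz => (h2 z hz).1
  have hUD : ball (0 : ℂ) ρ' ⊆ UD := fun z hz => (h2 z hz).2
  have hp1 : ‖p‖ < 1 := mem_ball_zero_iff.1 hp
  have hpos : ∀ w ∈ UD, 0 < (1 - (starRingEnd ℂ) p * w).re := by
    intro w hw
    have hw1 : ‖w‖ < 1 := mem_ball_zero_iff.1 hw
    have h3 : ‖(starRingEnd ℂ) p * w‖ < 1 := by
      rw [norm_mul, Complex.norm_conj]
      nlinarith [norm_nonneg p, norm_nonneg w]
    have h4 := (abs_le.1 (Complex.abs_re_le_norm ((starRingEnd ℂ) p * w))).2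
    rw [Complex.sub_re, Complex.one_re]
    linarith
  have hSU : ∀ z ∈ ball (0 : ℂ) ρ', S p z ∈ UD := fun z hz => (hm z (hUD hz)).2.1
  obtain ⟨G', hG'⟩ : ∃ G' : ℂ → ℂ, G' = fun z => G (S p z) +
      ((2 * β : ℝ) : ℂ) * Complex.log (1 - (starRingEnd ℂ) p * S p z) := ⟨_, rfl⟩
  have hG'd : DifferentiableOn ℂ G' (ball 0 ρ') := by
    rw [hG']
    refine (hG.comp (hSd.mono hUD) hSmap).add (DifferentiableOn.const_mul ?_ _)
    refine DifferentiableOn.clog ((((hSd.mono hUD).const_mul _)).const_sub _) ?_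
    intro z hz
    exact Or.inl (hpos _ (hSU z hz))
  have hF'd : DifferentiableOn ℂ (fun z => F (S p z)) (ball 0 ρ') := hF.comp (hSd.mono hUD) hSmap
  have hder : deriv (fun z => F (S p z)) 0 = deriv F p * (1 - (‖p‖ : ℂ) ^ 2) := by
    have h5 : HasDerivAt (S p) (1 - (‖p‖ : ℂ) ^ 2) 0 := by
      rw [← hSd0]
      exact (hSd.differentiableAt (isOpen_ball.mem_nhds h0U)).hasDerivAt
    have h6 : HasDerivAt F (deriv F p) (S p 0) := by
      rw [hS0]
      exact (hF.differentiableAt (isOpen_ball.mem_nhds (mem_ball_self hρ))).hasDerivAt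
    exact (h6.comp (0 : ℂ) h5).deriv
  have hn : ‖deriv (fun z => F (S p z)) 0‖ = ‖deriv F p‖ * (1 - ‖p‖ ^ 2) := by
    rw [hder, norm_mul]
    congr 1
    have : (1 - (‖p‖ : ℂ) ^ 2) = ((1 - ‖p‖ ^ 2 : ℝ) : ℂ) := by push_cast; ring
    rw [this, Complex.norm_real, Real.norm_of_nonneg]
    nlinarith [norm_nonneg p]
  obtain ⟨z, hz, hz'⟩ := MPR_loc0 G' (fun z => F (S p z)) β A ρ' hρ' hG'd hF'd hβ hA (by rw [hn]; exact hd)
  refine ⟨S p z, hSmap hz, ?_⟩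
  have hre : ∀ z, (G' z).re = (G (S p z)).re + 2 * β * Real.log ‖1 - (starRingEnd ℂ) p * S p z‖ := by
    intro z
    rw [hG']
    simp only [Complex.add_re, Complex.re_ofReal_mul, Complex.log_re]
  have hid : ∀ z ∈ ball (0 : ℂ) ρ', Real.log (1 - ‖z‖ ^ 2) + 2 * Real.log ‖1 - (starRingEnd ℂ) p * S p z‖ =
      Real.log (1 - ‖p‖ ^ 2) + Real.log (1 - ‖S p z‖ ^ 2) := by
    intro z hz
    have h7 := hN (S p z) (hSU z hz)
    rw [(hm z (hUD hz)).2.2.2] at h7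
    have h8 : 0 < ‖1 - (starRingEnd ℂ) p * S p z‖ := by
      rw [norm_pos_iff]
      intro h
      have := hpos _ (hSU z hz)
      rw [h] at this
      simp at this
    have h9 : 0 < 1 - ‖p‖ ^ 2 := by nlinarith [norm_nonneg p]
    have h10 : 0 < 1 - ‖S p z‖ ^ 2 := by
      have := mem_ball_zero_iff.1 (hSU z hz)
      nlinarith [norm_nonneg (S p z)]
    rw [h7, Real.log_div (by positivity) (by positivity), Real.log_mul h9.ne' h10.ne', Real.log_pow]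
    push_cast
    ring
  have h0 := hid 0 (mem_ball_self hρ')
  rw [hS0] at h0
  simp only [norm_zero] at h0
  norm_num at h0
  have hz2 := hid z hz
  rw [hre, hre, hS0] at hz'
  have e1 : β * (Real.log (1 - ‖z‖ ^ 2) + 2 * Real.log ‖1 - (starRingEnd ℂ) p * S p z‖) =
      β * (Real.log (1 - ‖p‖ ^ 2) + Real.log (1 - ‖S p z‖ ^ 2)) := by rw [hz2]
  have e0 : β * (2 * Real.log ‖1 - (starRingEnd ℂ) p * p‖) = β * (Real.log (1 - ‖p‖ ^ 2) + Real.log (1 - ‖p‖ ^ 2)) := by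
    rw [h0]
  nlinarith

/-! ## The theorem -/

theorem MPR (hMOB : HY.MOB_stmt) : MPR_stmt := by
  intro F b s s' α A r ε R th hss hF hb hA hr hr1 hε hth hR hF0 hF0R hu0 hD hN
  have h0U : (0 : ℂ) ∈ UD := mem_ball_self one_pos
  have hεR : ε < R := hF0.trans hF0R
  have hR0 : 0 < R := hε.trans hεR
  obtain ⟨L, hL⟩ : ∃ L : ℝ, L = Real.log (R / ε) := ⟨_, rfl⟩
  have hL0 : 0 < L := by rw [hL]; exact Real.log_pos ((one_lt_div hε).2 hεR)
  obtain ⟨l, hl⟩ : ∃ l : ℝ, l = Real.log (1 / (1 - r ^ 2)) := ⟨_, rfl⟩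
  have hr2 : 0 < 1 - r ^ 2 := by nlinarith
  have hl' : l = -Real.log (1 - r ^ 2) := by rw [hl, one_div, Real.log_inv]
  have hl0 : 0 < l := by rw [hl]; exact Real.log_pos ((one_lt_div hr2).2 (by nlinarith))
  obtain ⟨ui, hui⟩ : ∃ ui : ℂ → ℝ, ui = fun w => ∑ i ∈ s', -Real.log ‖b i w‖ := ⟨_, rfl⟩
  obtain ⟨us, hus⟩ : ∃ us : ℂ → ℝ, us = fun w => ∑ i ∈ s, α i * (-Real.log ‖b i w‖) := ⟨_, rfl⟩
  obtain ⟨D, hDef⟩ : ∃ D : ℂ → ℝ, D = fun w => (Real.log R - Real.log ‖F w‖) -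
      L * (ui w / th + us w + (A * (1 - ‖F w‖ ^ 2) - Real.log (1 - ‖w‖ ^ 2)) / l) := ⟨_, rfl⟩
  have hcbU : closedBall (0 : ℂ) r ⊆ UD := closedBall_subset_ball hr1
  have hnn : ∀ w ∈ UD, ∀ i ∈ s, 0 ≤ -Real.log ‖b i w‖ := by
    intro w hw i hi
    have h1 := mem_ball_zero_iff.1 ((hb i hi).2.1 hw)
    have := Real.log_nonpos (norm_nonneg _) h1.le
    linarith
  have hui0 : ∀ w ∈ UD, 0 ≤ ui w := by
    intro w hw; rw [hui]
    exact Finset.sum_nonneg fun i hi => hnn w hw i (hss hi)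
  have hus0 : ∀ w ∈ UD, 0 ≤ us w := by
    intro w hw; rw [hus]
    exact Finset.sum_nonneg fun i hi => mul_nonneg (hb i hi).2.2.2.le (hnn w hw i hi)
  have hterm : ∀ w ∈ UD, ∀ i ∈ s, α i * (-Real.log ‖b i w‖) ≤ us w := by
    intro w hw i hi
    rw [hus]
    exact Finset.single_le_sum (f := fun i => α i * (-Real.log ‖b i w‖))
      (fun j hj => mul_nonneg (hb j hj).2.2.2.le (hnn w hw j hj)) hi
  have hFc : ContinuousOn F UD := hF.continuousOn
  have hbc : ∀ i ∈ s, ContinuousOn (b i) UD := fun i hi => (hb i hi).1.continuousOn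
  -- the compact set
  obtain ⟨K₁, hK₁⟩ : ∃ K₁ : Set ℂ, K₁ = (closedBall (0 : ℂ) r ∩ (fun w => ‖F w‖) ⁻¹' Icc ε R) ∩
      ⋂ i ∈ s, (closedBall (0 : ℂ) r ∩ (fun w => ‖b i w‖) ⁻¹' Ici (Real.exp (-(1 / α i)))) := ⟨_, rfl⟩
  have hK₁c : IsClosed K₁ := by
    rw [hK₁]
    refine IsClosed.inter ?_ (isClosed_biInter fun i hi => ?_)
    · exact (hFc.mono hcbU).norm.preimage_isClosed_of_isClosed isClosed_closedBall isClosed_Icc
    · exact ((hbc i hi).mono hcbU).norm.preimage_isClosed_of_isClosed isClosed_closedBall isClosed_Ici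
  have hK₁1 : ∀ w ∈ K₁, ‖w‖ ≤ r ∧ ε ≤ ‖F w‖ ∧ ‖F w‖ ≤ R ∧ ∀ i ∈ s, Real.exp (-(1 / α i)) ≤ ‖b i w‖ := by
    intro w hw
    rw [hK₁] at hw
    obtain ⟨⟨h1, h2⟩, h3⟩ := hw
    exact ⟨mem_closedBall_zero_iff.1 h1, h2.1, h2.2, fun i hi => (Set.mem_iInter₂.1 h3 i hi).2⟩
  have hK₁U : K₁ ⊆ UD := fun w hw => hcbU (mem_closedBall_zero_iff.2 (hK₁1 w hw).1)
  have hbne : ∀ w ∈ K₁, ∀ i ∈ s, b i w ≠ 0 := fun w hw i hi h => by
    have := (hK₁1 w hw).2.2.2 i hi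
    rw [h, norm_zero] at this
    exact absurd (Real.exp_pos _) (not_lt.2 this)
  have hFne : ∀ w ∈ K₁, F w ≠ 0 := fun w hw h => by
    have := (hK₁1 w hw).2.1
    rw [h, norm_zero] at this
    linarith
  have huic : ContinuousOn ui K₁ := by
    rw [hui]
    refine continuousOn_finsetSum _ fun i hi => ContinuousOn.neg (ContinuousOn.log ?_ ?_)
    · exact ((hbc i (hss hi)).mono hK₁U).norm
    · exact fun w hw => norm_ne_zero_iff.2 (hbne w hw i (hss hi))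
  have husc : ContinuousOn us K₁ := by
    rw [hus]
    refine continuousOn_finsetSum _ fun i hi => ContinuousOn.const_mul ?_ _ |>.congr (fun w _ => rfl)
    refine ContinuousOn.neg (ContinuousOn.log ?_ ?_)
    · exact ((hbc i hi).mono hK₁U).norm
    · exact fun w hw => norm_ne_zero_iff.2 (hbne w hw i hi)
  have hlogpos : ∀ w ∈ UD, 0 < 1 - ‖w‖ ^ 2 := by
    intro w hw
    have := mem_ball_zero_iff.1 hw
    nlinarith [norm_nonneg w]
  have hDc : ContinuousOn D K₁ := by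
    rw [hDef]
    have hFn : ContinuousOn (fun w => ‖F w‖) K₁ := (hFc.mono hK₁U).norm
    have h1 : ContinuousOn (fun w => Real.log ‖F w‖) K₁ := hFn.log fun w hw => norm_ne_zero_iff.2 (hFne w hw)
    have h2 : ContinuousOn (fun w : ℂ => Real.log (1 - ‖w‖ ^ 2)) K₁ := by
      refine ContinuousOn.log ?_ fun w hw => (hlogpos w (hK₁U hw)).ne'
      exact (continuous_const.sub (continuous_norm.pow 2)).continuousOn
    exact (continuousOn_const.sub h1).sub (continuousOn_const.mul (((huic.div_const _).add husc).add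
      (((continuousOn_const.mul (continuousOn_const.sub (hFn.pow 2))).sub h2).div_const _)))
  obtain ⟨K, hK⟩ : ∃ K : Set ℂ, K = K₁ ∩ us ⁻¹' Iic 1 := ⟨_, rfl⟩
  have hKc : IsCompact K := by
    refine IsCompact.of_isClosed_subset (isCompact_closedBall (0 : ℂ) r) ?_ ?_
    · rw [hK]; exact husc.preimage_isClosed_of_isClosed hK₁c isClosed_Iic
    · intro w hw
      rw [hK] at hw
      exact mem_closedBall_zero_iff.2 (hK₁1 w hw.1).1
  have hmem : ∀ w ∈ UD, ‖w‖ ≤ r → ε ≤ ‖F w‖ → ‖F w‖ ≤ R → (∀ i ∈ s, b i w ≠ 0) → us w ≤ 1 → w ∈ K := by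
    intro w hwU h1 h2 h3 h4 h5
    rw [hK, hK₁]
    refine ⟨⟨⟨mem_closedBall_zero_iff.2 h1, h2, h3⟩, Set.mem_iInter₂.2 fun i hi =>
      ⟨mem_closedBall_zero_iff.2 h1, ?_⟩⟩, h5⟩
    have h6 := (hterm w hwU i hi).trans h5
    have h7 : -(1 / α i) ≤ Real.log ‖b i w‖ := by
      have h8 : -Real.log ‖b i w‖ ≤ 1 / α i := by
        rw [le_div_iff₀ (hb i hi).2.2.2]
        linarith
      linarith
    show Real.exp (-(1 / α i)) ≤ ‖b i w‖
    calc Real.exp (-(1 / α i)) ≤ Real.exp (Real.log ‖b i w‖) := Real.exp_le_exp.2 h7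
      _ = ‖b i w‖ := Real.exp_log (norm_pos_iff.2 (h4 i hi))
  have h0K : (0 : ℂ) ∈ K := hmem 0 h0U (by simpa using hr.le) hF0.le hF0R.le (fun i hi => (hb i hi).2.2.1)
    (by rw [hus]; exact hu0.le)
  obtain ⟨p, hpK, hpmax⟩ := hKc.exists_isMaxOn ⟨0, h0K⟩ (hDc.mono (by rw [hK]; exact inter_subset_left))
  have hpK' := hpK
  rw [hK] at hpK'
  obtain ⟨hp1, hp2⟩ := hpK'
  obtain ⟨hpr, hpε, hpR, hpb⟩ := hK₁1 p hp1
  have hpU : p ∈ UD := hK₁U hp1
  have hpus : us p ≤ 1 := hp2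
  suffices hkey : D p ≤ 0 by
    have h1 : D 0 ≤ 0 := (hpmax h0K).trans hkey
    rw [hDef] at h1
    simp only [norm_zero] at h1
    have h2 : Real.log (R / ‖F 0‖) = Real.log R - Real.log ‖F 0‖ :=
      Real.log_div hR0.ne' (hε.trans hF0).ne'
    rw [h2, ← hL, ← hl]
    have h3 : (A * (1 - ‖F 0‖ ^ 2) - Real.log (1 - 0 ^ 2)) / l ≤ A / l := by
      apply div_le_div_of_nonneg_right _ hl0.le
      norm_num
      nlinarith [sq_nonneg ‖F 0‖]
    have h4 : L * (ui 0 / th + us 0 + (A * (1 - ‖F 0‖ ^ 2) - Real.log (1 - 0 ^ 2)) / l) ≤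
        L * (ui 0 / th + us 0 + A / l) := mul_le_mul_of_nonneg_left (by linarith) hL0.le
    have h5 : ui 0 = ∑ i ∈ s', -Real.log ‖b i 0‖ := by rw [hui]
    have h6 : us 0 = ∑ i ∈ s, α i * (-Real.log ‖b i 0‖) := by rw [hus]
    rw [h5, h6] at h4
    rw [h5, h6] at h1
    linarith
  by_contra hDp
  push Not at hDp
  -- nonnegativity of the parts
  have hS0 : 0 ≤ (A * (1 - ‖F p‖ ^ 2) - Real.log (1 - ‖p‖ ^ 2)) / l := by
    apply div_nonneg _ hl0.le
    have h1 : ‖F p‖ ^ 2 ≤ 1 := by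
      have : ‖F p‖ ≤ 1 := hpR.trans hR
      nlinarith [norm_nonneg (F p)]
    have h2 : Real.log (1 - ‖p‖ ^ 2) ≤ 0 := Real.log_nonpos (hlogpos p hpU).le (by nlinarith [norm_nonneg p])
    nlinarith
  have hFp0 : 0 < ‖F p‖ := lt_of_lt_of_le hε hpε
  have hhL : Real.log R - Real.log ‖F p‖ ≤ L := by
    rw [hL, Real.log_div hR0.ne' hε.ne']
    have := Real.log_le_log hε hpε
    linarith
  have hu1 := hui0 p hpU
  have hu2 := hus0 p hpU
  have hu1' : 0 ≤ ui p / th := div_nonneg hu1 hth.le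
  have hDp' : L * (ui p / th + us p + (A * (1 - ‖F p‖ ^ 2) - Real.log (1 - ‖p‖ ^ 2)) / l) <
      Real.log R - Real.log ‖F p‖ := by
    rw [hDef] at hDp
    linarith
  have hless : ui p / th + us p + (A * (1 - ‖F p‖ ^ 2) - Real.log (1 - ‖p‖ ^ 2)) / l < 1 := by
    by_contra h
    push Not at h
    have := mul_le_mul_of_nonneg_left h hL0.le
    linarith
  have hc1 : ‖F p‖ ≠ ε := by
    intro h
    have h1 := hN p hpr h (hbne p hp1)
    have h2 : th ≤ ui p := by rw [hui]; exact h1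
    have h3 : 1 ≤ ui p / th := (one_le_div hth).2 h2
    linarith
  have hc2 : ‖F p‖ ≠ R := by
    intro h
    have h1 : 0 ≤ L * (ui p / th + us p + (A * (1 - ‖F p‖ ^ 2) - Real.log (1 - ‖p‖ ^ 2)) / l) :=
      mul_nonneg hL0.le (by linarith)
    rw [h] at hDp' h1
    linarith
  have hc3 : us p ≠ 1 := by
    intro h
    linarith
  have hc4 : ‖p‖ ≠ r := by
    intro h
    have h1 : l ≤ A * (1 - ‖F p‖ ^ 2) - Real.log (1 - ‖p‖ ^ 2) := by
      rw [hl', h]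
      have h1 : ‖F p‖ ^ 2 ≤ 1 := by
        have : ‖F p‖ ≤ 1 := hpR.trans hR
        nlinarith [norm_nonneg (F p)]
      nlinarith
    have h2 : 1 ≤ (A * (1 - ‖F p‖ ^ 2) - Real.log (1 - ‖p‖ ^ 2)) / l := (one_le_div hl0).2 h1
    linarith
  have g1 : ‖p‖ < r := lt_of_le_of_ne hpr hc4
  have g2 : ε < ‖F p‖ := lt_of_le_of_ne hpε (Ne.symm hc1)
  have g3 : ‖F p‖ < R := lt_of_le_of_ne hpR hc2
  have g4 : us p < 1 := lt_of_le_of_ne hpus hc3
  have gD := hD p g1 g2 g3 (hbne p hp1) (by rw [hus] at g4; exact g4)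
  have hFcp : ContinuousAt F p := hFc.continuousAt (isOpen_ball.mem_nhds hpU)
  have hbcp : ∀ i ∈ s, ContinuousAt (b i) p := fun i hi => (hbc i hi).continuousAt (isOpen_ball.mem_nhds hpU)
  have huscp : ContinuousAt us p := by
    rw [hus]
    refine tendsto_finsetSum _ fun i hi => ?_
    have h1 : ContinuousAt (fun w => α i * (-Real.log ‖b i w‖)) p :=
      continuousAt_const.mul (((hbcp i hi).norm.log (norm_ne_zero_iff.2 (hbne p hp1 i hi))).neg)
    exact h1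
  have e1 : ∀ᶠ w in 𝓝 p, w ∈ UD := isOpen_ball.mem_nhds hpU
  have e2 : ∀ᶠ w in 𝓝 p, ‖w‖ < r := continuous_norm.continuousAt.eventually_lt continuousAt_const g1
  have e3 : ∀ᶠ w in 𝓝 p, ε < ‖F w‖ := ContinuousAt.eventually_lt continuousAt_const hFcp.norm g2
  have e4 : ∀ᶠ w in 𝓝 p, ‖F w‖ < R := ContinuousAt.eventually_lt hFcp.norm continuousAt_const g3
  have e5 : ∀ᶠ w in 𝓝 p, us w < 1 := ContinuousAt.eventually_lt huscp continuousAt_const g4
  have e6 : ∀ᶠ w in 𝓝 p, F w / F p ∈ slitPlane := by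
    have h1 : ContinuousAt (fun w => F w / F p) p := hFcp.div_const _
    apply h1.eventually_mem
    simp only [div_self (hFne p hp1)]
    exact Complex.isOpen_slitPlane.mem_nhds Complex.one_mem_slitPlane
  have e7 : ∀ᶠ w in 𝓝 p, ∀ i ∈ s, b i w / b i p ∈ slitPlane := by
    rw [Filter.eventually_all_finset]
    intro i hi
    have h1 : ContinuousAt (fun w => b i w / b i p) p := (hbcp i hi).div_const _
    apply h1.eventually_mem
    simp only [div_self (hbne p hp1 i hi)]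
    exact Complex.isOpen_slitPlane.mem_nhds Complex.one_mem_slitPlane
  obtain ⟨ρ, hρ, hball⟩ := Metric.eventually_nhds_iff_ball.1
    (e1.and (e2.and (e3.and (e4.and (e5.and (e6.and e7))))))
  have hne_of : ∀ w ∈ ball p ρ, ∀ i ∈ s, b i w ≠ 0 := by
    intro w hw i hi h
    have := (hball w hw).2.2.2.2.2.2 i hi
    rw [h, zero_div] at this
    exact Complex.zero_notMem_slitPlane this
  have hbU : ball p ρ ⊆ UD := fun w hw => (hball w hw).1
  obtain ⟨G, hG⟩ : ∃ G : ℂ → ℂ, G = fun w => -Complex.log (F w / F p) +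
      ((L / th : ℝ) : ℂ) * (∑ i ∈ s', Complex.log (b i w / b i p)) +
      (L : ℂ) * (∑ i ∈ s, (α i : ℂ) * Complex.log (b i w / b i p)) := ⟨_, rfl⟩
  have hGd : DifferentiableOn ℂ G (ball p ρ) := by
    rw [hG]
    refine ((DifferentiableOn.clog ((hF.mono hbU).div_const _) fun w hw => (hball w hw).2.2.2.2.2.1).neg.add
      (DifferentiableOn.const_mul (DifferentiableOn.fun_sum fun i hi => ?_) _)).add
      (DifferentiableOn.const_mul (DifferentiableOn.fun_sum fun i hi => ?_) _)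
    · exact DifferentiableOn.clog (((hb i (hss hi)).1.mono hbU).div_const _)
        fun w hw => (hball w hw).2.2.2.2.2.2 i (hss hi)
    · exact (DifferentiableOn.clog (((hb i hi).1.mono hbU).div_const _)
        fun w hw => (hball w hw).2.2.2.2.2.2 i hi).const_mul _
  obtain ⟨w, hw, hw'⟩ := MPR_loc hMOB p hpU G F (L / l) A ρ hρ hGd (hF.mono hbU) (div_pos hL0 hl0) hA gD
  have hwU := hbU hw
  have hwK : w ∈ K := hmem w hwU (hball w hw).2.1.le (hball w hw).2.2.1.le (hball w hw).2.2.2.1.le (hne_of w hw)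
    (hball w hw).2.2.2.2.1.le
  have hDw : D w ≤ D p := hpmax hwK
  have hFw0 : 0 < ‖F w‖ := hε.trans (hball w hw).2.2.1
  have hGre : ∀ z ∈ ball p ρ, 0 < ‖F z‖ → (G z).re = -(Real.log ‖F z‖ - Real.log ‖F p‖) - L / th * (ui z - ui p) -
      L * (us z - us p) := by
    intro z hz hz0
    rw [hG, hui, hus]
    simp only [Complex.add_re, Complex.neg_re, Complex.re_ofReal_mul, Complex.re_sum, Complex.log_re, norm_div]
    rw [Real.log_div hz0.ne' hFp0.ne', ← Finset.sum_sub_distrib, ← Finset.sum_sub_distrib]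
    have k1 : ∑ i ∈ s', (-Real.log ‖b i z‖ - -Real.log ‖b i p‖) = -∑ i ∈ s', Real.log (‖b i z‖ / ‖b i p‖) := by
      rw [← Finset.sum_neg_distrib]
      refine Finset.sum_congr rfl fun i hi => ?_
      rw [Real.log_div (norm_ne_zero_iff.2 (hne_of z hz i (hss hi))) (norm_ne_zero_iff.2 (hbne p hp1 i (hss hi)))]
      ring
    have k2 : ∑ i ∈ s, (α i * (-Real.log ‖b i z‖) - α i * (-Real.log ‖b i p‖)) =
        -∑ i ∈ s, α i * Real.log (‖b i z‖ / ‖b i p‖) := by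
      rw [← Finset.sum_neg_distrib]
      refine Finset.sum_congr rfl fun i hi => ?_
      rw [Real.log_div (norm_ne_zero_iff.2 (hne_of z hz i hi)) (norm_ne_zero_iff.2 (hbne p hp1 i hi))]
      ring
    rw [k1, k2]
    ring
  rw [hGre w hw hFw0, hGre p (mem_ball_self hρ) hFp0] at hw'
  rw [hDef] at hDw
  simp only at hDw
  have hdiv1 : ui w / th - ui p / th = (ui w - ui p) / th := by ring
  have q1 : L * (ui w / th + us w + (A * (1 - ‖F w‖ ^ 2) - Real.log (1 - ‖w‖ ^ 2)) / l) =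
      L / th * ui w + L * us w + L / l * (A * (1 - ‖F w‖ ^ 2) - Real.log (1 - ‖w‖ ^ 2)) := by ring
  have q2 : L * (ui p / th + us p + (A * (1 - ‖F p‖ ^ 2) - Real.log (1 - ‖p‖ ^ 2)) / l) =
      L / th * ui p + L * us p + L / l * (A * (1 - ‖F p‖ ^ 2) - Real.log (1 - ‖p‖ ^ 2)) := by ring
  rw [q1, q2] at hDw
  nlinarith

end DH
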