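import Pool.Agent.helper19.HY.DST
import Pool.Agent.helper44.EX.Spec

/-!
# Project dh: / ed:, module NAU: a self map of the disc with hyperbolic derivative near `1` has a univalent inverse branch

Self-contained. Author: helper93.
-/

set_option autoImplicit false

open Complex Metric Set Filter Topology MeasureTheory
open HY (UD T S hd)

noncomputable section

namespace DH

/-- NAU: inverse branch of a near automorphism `J` of the disc with `‖J 0‖ ≤ 1/2`, over the disc `ball 0 (1/8)`. -/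
def NAU_stmt : Prop := ∃ θ > (0 : ℝ), ∀ J : ℂ → ℂ, DifferentiableOn ℂ J UD → MapsTo J UD UD → ‖J 0‖ ≤ 1 / 2 →
  Real.exp (-θ) ≤ hd J 0 → ∃ g : ℂ → ℂ, DifferentiableOn ℂ g (ball 0 (1 / 8)) ∧ InjOn g (ball 0 (1 / 8)) ∧
  ∀ y ∈ ball (0 : ℂ) (1 / 8), ‖g y‖ ≤ 99 / 100 ∧ J (g y) = y

/-- a self map of the disc which fixes `0`, with derivative near `1`, is injective on `ball 0 (199/200)`. -/
theorem NAU_inj (K : ℂ → ℂ) (hK : DifferentiableOn ℂ K UD) (hKm : MapsTo K UD UD) (hK0 : K 0 = 0)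
    (hd : 1 - 1 / 10 ^ 8 ≤ ‖deriv K 0‖) : InjOn K (ball 0 (199 / 200)) := by
  have hop : IsOpen UD := isOpen_ball
  have h0U : (0 : ℂ) ∈ UD := mem_ball_self one_pos
  obtain ⟨κ, hκ⟩ : ∃ κ : ℂ, κ = deriv K 0 := ⟨_, rfl⟩
  rw [← hκ] at hd
  have hh : DifferentiableOn ℂ (dslope K 0) UD :=
    (Complex.differentiableOn_dslope (hop.mem_nhds h0U)).2 hK
  have hh1 : ∀ z ∈ UD, ‖dslope K 0 z‖ ≤ 1 := by
    intro z hz
    have h1 := Complex.norm_dslope_le_div_of_mapsTo_ball (f := K) (c := 0) (z := z) (R₁ := 1) (R₂ := 1) hK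
      (by rw [hK0]; exact fun w hw => ball_subset_closedBall (hKm hw)) hz
    simpa using h1
  have hh0 : dslope K 0 0 = κ := by rw [dslope_same, hκ]
  have hκ1 : ‖κ‖ ≤ 1 := by rw [← hh0]; exact hh1 0 h0U
  have hκ0 : 0 < ‖κ‖ := by linarith [show (0 : ℝ) < 1 - 1 / 10 ^ 8 by norm_num]
  obtain ⟨s, hs⟩ : ∃ s : ℝ, s = 1 + 1 / 10 ^ 8 - ‖κ‖ ^ 2 := ⟨_, rfl⟩
  have hs0 : 0 < s := by rw [hs]; nlinarith
  have hs1 : s ≤ 3 / 10 ^ 8 := by rw [hs]; nlinarith
  obtain ⟨m, hm⟩ : ∃ m : ℂ → ℂ, m = fun z => ((1 + 1 / 10 ^ 8 : ℝ) : ℂ) - (starRingEnd ℂ) κ * dslope K 0 z := ⟨_, rfl⟩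
  have hmre : ∀ z ∈ UD, 0 < (m z).re := by
    intro z hz
    have h1 : ‖(starRingEnd ℂ) κ * dslope K 0 z‖ ≤ 1 := by
      rw [norm_mul, Complex.norm_conj]
      have := hh1 z hz
      nlinarith [norm_nonneg κ, norm_nonneg (dslope K 0 z)]
    have h2 := (abs_le.1 (Complex.abs_re_le_norm ((starRingEnd ℂ) κ * dslope K 0 z))).2
    rw [hm]
    simp only [Complex.sub_re, Complex.ofReal_re]
    have : (0 : ℝ) < 1 / 10 ^ 8 := by norm_num
    linarith
  have hms : ∀ z, m z - s = (starRingEnd ℂ) κ * (κ - dslope K 0 z) := by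
    intro z
    rw [hm, hs]
    have h3 : (starRingEnd ℂ) κ * κ = ((‖κ‖ ^ 2 : ℝ) : ℂ) := by
      rw [mul_comm, Complex.mul_conj, Complex.normSq_eq_norm_sq]
    rw [mul_sub, h3]
    push_cast
    ring
  have hmd : DifferentiableOn ℂ m UD := by
    rw [hm]
    exact (hh.const_mul _).const_sub _
  have hden : ∀ z ∈ UD, m z + s ≠ 0 := by
    intro z hz h
    have h1 := hmre z hz
    have h2 : (m z + s).re = 0 := by rw [h]; rfl
    rw [Complex.add_re, Complex.ofReal_re] at h2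
    linarith
  have hqlt : ∀ z ∈ UD, ‖m z - s‖ < ‖m z + s‖ := by
    intro z hz
    have h1 := hmre z hz
    rw [← abs_of_nonneg (norm_nonneg (m z - s)), ← abs_of_nonneg (norm_nonneg (m z + s)), ← sq_lt_sq,
      Complex.sq_norm, Complex.sq_norm, Complex.normSq_apply, Complex.normSq_apply]
    simp only [Complex.sub_re, Complex.sub_im, Complex.add_re, Complex.add_im, Complex.ofReal_re, Complex.ofReal_im]
    nlinarith
  have hq : ∀ z ∈ UD, ‖m z - s‖ ≤ ‖z‖ * ‖m z + s‖ := by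
    intro z hz
    have h1 : ‖(m z - s) / (m z + s)‖ ≤ ‖z‖ := by
      have h2 := Complex.norm_le_norm_of_mapsTo_ball (f := fun z => (m z - s) / (m z + s)) (R := 1)
        (z := z) ((hmd.sub_const _).div (hmd.add_const _) hden) (fun w hw => by
          rw [mem_closedBall_zero_iff, norm_div, div_le_one (norm_pos_iff.2 (hden w hw))]
          exact (hqlt w hw).le) (by
          show (m 0 - s) / (m 0 + s) = 0
          rw [hms 0, hh0]; simp) (mem_ball_zero_iff.1 hz)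
      exact h2
    rw [norm_div, div_le_iff₀ (norm_pos_iff.2 (hden z hz))] at h1
    exact h1
  have hhk : ∀ z ∈ ball (0 : ℂ) (999 / 1000), ‖dslope K 0 z - κ‖ ≤ 1 / 10 ^ 3 := by
    intro z hz
    have hz1 : ‖z‖ < 999 / 1000 := mem_ball_zero_iff.1 hz
    have hzU : z ∈ UD := mem_ball_zero_iff.2 (by linarith)
    have h1 := hq z hzU
    have h2 : ‖m z + s‖ ≤ ‖m z - s‖ + 2 * s := by
      have h3 : m z + s = (m z - s) + ((2 * s : ℝ) : ℂ) := by push_cast; ring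
      rw [h3]
      refine (norm_add_le _ _).trans ?_
      rw [Complex.norm_real, Real.norm_of_nonneg (by positivity)]
    have h4 : ‖m z - s‖ ≤ 2000 * s := by
      nlinarith [norm_nonneg (m z - s), norm_nonneg z]
    rw [hms z, norm_mul, Complex.norm_conj, norm_sub_rev] at h4
    have h5 : (1 / 2 : ℝ) ≤ ‖κ‖ := by linarith [show (1 / 2 : ℝ) ≤ 1 - 1 / 10 ^ 8 by norm_num]
    have h6 : (1 / 2) * ‖dslope K 0 z - κ‖ ≤ 2000 * s :=
      (mul_le_mul_of_nonneg_right h5 (norm_nonneg _)).trans h4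
    norm_num at hs1 ⊢
    linarith
  obtain ⟨e, he⟩ : ∃ e : ℂ → ℂ, e = fun z => K z - κ * z := ⟨_, rfl⟩
  have hez : ∀ z ∈ ball (0 : ℂ) (999 / 1000), ‖e z‖ ≤ 1 / 10 ^ 3 := by
    intro z hz
    have hz1 : ‖z‖ < 999 / 1000 := mem_ball_zero_iff.1 hz
    have h1 : e z = z * (dslope K 0 z - κ) := by
      have h2 := sub_smul_dslope K 0 z
      rw [sub_zero, smul_eq_mul, hK0, sub_zero] at h2
      rw [he, mul_sub, h2]
      ring
    rw [h1, norm_mul]
    have := hhk z hz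
    nlinarith [norm_nonneg z, norm_nonneg (dslope K 0 z - κ)]
  have hed : DifferentiableOn ℂ e (ball 0 (999 / 1000)) := by
    rw [he]
    refine (hK.mono (ball_subset_ball (by norm_num))).sub ?_
    fun_prop
  have hed' : ∀ z ∈ ball (0 : ℂ) (199 / 200), ‖deriv e z‖ ≤ 1 / 3 := by
    intro z hz
    have hz1 : ‖z‖ < 199 / 200 := mem_ball_zero_iff.1 hz
    have hsub : closedBall z (3 / 1000) ⊆ ball (0 : ℂ) (999 / 1000) := by
      intro w hw
      rw [mem_ball_zero_iff]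
      have h1 : ‖w‖ ≤ ‖w - z‖ + ‖z‖ := by simpa using norm_add_le (w - z) z
      have h2 : ‖w - z‖ ≤ 3 / 1000 := by rw [← dist_eq_norm]; exact hw
      linarith
    have h1 := Complex.norm_deriv_le_of_forall_mem_sphere_norm_le (f := e) (c := z) (R := 3 / 1000) (C := 1 / 10 ^ 3)
      (by norm_num) ((hed.mono (hsub)).diffContOnCl_ball (Subset.refl _)) (fun w hw => hez w (hsub (sphere_subset_closedBall hw)))
    refine h1.trans ?_
    norm_num
  intro z hz w hw hzw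
  have h1 : ‖e w - e z‖ ≤ 1 / 3 * ‖w - z‖ :=
    (convex_ball (0 : ℂ) (199 / 200)).norm_image_sub_le_of_norm_deriv_le
      (fun x hx => hed.differentiableAt (isOpen_ball.mem_nhds (ball_subset_ball (by norm_num) hx))) hed' hz hw
  have h2 : e w - e z = κ * (z - w) := by rw [he]; simp only; rw [hzw]; ring
  rw [h2, norm_mul, norm_sub_rev w z] at h1
  have h5 : (1 / 2 : ℝ) ≤ ‖κ‖ := by linarith [show (1 / 2 : ℝ) ≤ 1 - 1 / 10 ^ 8 by norm_num]
  have h6 : ‖z - w‖ ≤ 0 := by nlinarith [norm_nonneg (z - w)]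
  exact sub_eq_zero.1 (norm_le_zero_iff.1 h6)

theorem NAU (hMOB : HY.MOB_stmt) (hHDI : HY.HDI_stmt) (hKO0 : V3.KO0_stmt) (hOM0 : EX.OM0_stmt) : NAU_stmt := by
  refine ⟨1 / 10 ^ 8, by norm_num, fun J hJ hJm hJ0 hJd => ?_⟩
  have hop : IsOpen UD := isOpen_ball
  have h0U : (0 : ℂ) ∈ UD := mem_ball_self one_pos
  obtain ⟨a, ha⟩ : ∃ a : ℂ, a = J 0 := ⟨_, rfl⟩
  have haU : a ∈ UD := by rw [ha]; exact hJm h0U
  obtain ⟨hm, hTa, -, hTd, -, hTi, -, hN, -⟩ := hMOB a haU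
  obtain ⟨K, hK⟩ : ∃ K : ℂ → ℂ, K = fun z => T a (J z) := ⟨_, rfl⟩
  have hKd : DifferentiableOn ℂ K UD := by rw [hK]; exact hTd.comp hJ hJm
  have hKm : MapsTo K UD UD := by rw [hK]; exact fun z hz => (hm _ (hJm hz)).1
  have hK0 : K 0 = 0 := by rw [hK]; show T a (J 0) = 0; rw [← ha]; exact hTa
  have hKde : 1 - 1 / 10 ^ 8 ≤ ‖deriv K 0‖ := by
    have h1 := (hHDI.1 a J 0 haU (hJ.differentiableAt (hop.mem_nhds h0U)) (hJm h0U)).1
    have h2 : hd (fun z => T a (J z)) 0 = ‖deriv K 0‖ := by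
      rw [← hK, hd, hK0]; simp
    rw [h2] at h1
    rw [h1]
    refine le_trans ?_ hJd
    have := Real.add_one_le_exp (-(1 / 10 ^ 8 : ℝ))
    linarith
  have hinj := NAU_inj K hKd hKm hK0 hKde
  obtain ⟨L, hL⟩ : ∃ L : ℂ → ℂ, L = fun z => K ((99 / 100 : ℝ) * z) := ⟨_, rfl⟩
  have hmul : ∀ z ∈ UD, ‖((99 / 100 : ℝ) : ℂ) * z‖ < 99 / 100 := by
    intro z hz
    have := mem_ball_zero_iff.1 hz
    rw [norm_mul, Complex.norm_real, Real.norm_of_nonneg (by norm_num)]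
    linarith
  have hmulU : MapsTo (fun z : ℂ => ((99 / 100 : ℝ) : ℂ) * z) UD UD := fun z hz =>
    mem_ball_zero_iff.2 ((hmul z hz).trans (by norm_num))
  have hLd : DifferentiableOn ℂ L UD := by
    rw [hL]
    exact hKd.comp (by fun_prop) hmulU
  have hLm : MapsTo L UD UD := by rw [hL]; exact fun z hz => hKm (hmulU hz)
  have hLi : InjOn L UD := by
    rw [hL]
    intro z hz w hw hzw
    have h1 := hinj (mem_ball_zero_iff.2 ((hmul z hz).trans (by norm_num)))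
      (mem_ball_zero_iff.2 ((hmul w hw).trans (by norm_num))) hzw
    have h2 : ((99 / 100 : ℝ) : ℂ) ≠ 0 := by norm_num
    exact mul_left_cancel₀ h2 h1
  have hL0 : L 0 = 0 := by rw [hL]; simp [hK0]
  have hLde : ‖deriv L 0‖ = 99 / 100 * ‖deriv K 0‖ := by
    have h1 : HasDerivAt K (deriv K 0) (((99 / 100 : ℝ) : ℂ) * 0) := by
      rw [mul_zero]
      exact (hKd.differentiableAt (hop.mem_nhds h0U)).hasDerivAt
    have h2 : HasDerivAt (fun z : ℂ => ((99 / 100 : ℝ) : ℂ) * z) ((99 / 100 : ℝ) : ℂ) 0 := by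
      simpa using (hasDerivAt_id (0 : ℂ)).const_mul ((99 / 100 : ℝ) : ℂ)
    have h3 : HasDerivAt L (deriv K 0 * ((99 / 100 : ℝ) : ℂ)) 0 := by rw [hL]; exact h1.comp (0 : ℂ) h2
    rw [h3.deriv, norm_mul, Complex.norm_real, Real.norm_of_nonneg (by norm_num)]
    ring
  have hcov : ∀ b : ℂ, ‖b‖ ≤ 6 / 10 → b ∈ L '' UD := by
    intro b hb
    by_contra hbn
    have h1 := hOM0 (6 / 10) L b (by norm_num) (by norm_num) hLd hLm hL0 hb hbn
    rw [hLde] at h1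
    have h2 : Real.sqrt (6 / 10) ≤ 78 / 100 := Real.sqrt_le_iff.2 ⟨by norm_num, by norm_num⟩
    have h3 : 2 * Real.sqrt (6 / 10) / (1 + 6 / 10) ≤ 2 * (78 / 100) / (1 + 6 / 10) := by gcongr
    norm_num at h3 h1 hKde
    linarith
  obtain ⟨χ, hχ1, -, hχd⟩ := HY.DST_inv hKO0 (V := L '' UD) (a := 0) (φ := L) ⟨hLd, hLi, rfl, hL0⟩
  have hTy : ∀ y ∈ ball (0 : ℂ) (1 / 8), ‖T a y‖ ≤ 6 / 10 := by
    intro y hy
    have hy1 : ‖y‖ < 1 / 8 := mem_ball_zero_iff.1 hy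
    have hyU : y ∈ UD := mem_ball_zero_iff.2 (by linarith)
    have h1 := hN y hyU
    have ha1 : ‖a‖ ≤ 1 / 2 := by rw [ha]; exact hJ0
    have h2 : ‖1 - (starRingEnd ℂ) a * y‖ ≤ 17 / 16 := by
      refine (norm_sub_le _ _).trans ?_
      rw [norm_one, norm_mul, Complex.norm_conj]
      nlinarith [norm_nonneg a, norm_nonneg y]
    have h3 : 0 < ‖1 - (starRingEnd ℂ) a * y‖ := by
      have h4 := norm_sub_norm_le (1 : ℂ) ((starRingEnd ℂ) a * y)
      rw [norm_one, norm_mul, Complex.norm_conj] at h4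
      nlinarith [norm_nonneg a, norm_nonneg y]
    have h5 : (64 / 100 : ℝ) ≤ (1 - ‖a‖ ^ 2) * (1 - ‖y‖ ^ 2) / ‖1 - (starRingEnd ℂ) a * y‖ ^ 2 := by
      rw [le_div_iff₀ (by positivity)]
      have h6 : ‖1 - (starRingEnd ℂ) a * y‖ ^ 2 ≤ (17 / 16) ^ 2 := pow_le_pow_left₀ h3.le h2 2
      have h7 : 3 / 4 ≤ 1 - ‖a‖ ^ 2 := by nlinarith [norm_nonneg a]
      have h8 : 63 / 64 ≤ 1 - ‖y‖ ^ 2 := by nlinarith [norm_nonneg y]
      have h9 : 3 / 4 * (63 / 64) ≤ (1 - ‖a‖ ^ 2) * (1 - ‖y‖ ^ 2) := by gcongr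
      nlinarith
    rw [← h1] at h5
    nlinarith [norm_nonneg (T a y)]
  have hsub8 : ball (0 : ℂ) (1 / 8) ⊆ UD := ball_subset_ball (by norm_num)
  have hJg : ∀ y ∈ ball (0 : ℂ) (1 / 8), J ((99 / 100 : ℝ) * χ (T a y)) = y := by
    intro y hy
    obtain ⟨h1, h2⟩ := hχ1 (T a y) (hcov _ (hTy y hy))
    rw [hL] at h2
    simp only [hK] at h2
    exact hTi (hJm (hmulU h1)) (hsub8 hy) h2
  refine ⟨fun y => (99 / 100 : ℝ) * χ (T a y), ?_, ?_, ?_⟩
  · refine (hχd.comp (hTd.mono hsub8) fun y hy => hcov _ (hTy y hy)).const_mul _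
  · intro y hy y' hy' h
    have h1 := hJg y hy
    have h2 := hJg y' hy'
    simp only at h
    rw [h] at h1
    exact h1.symm.trans h2
  · intro y hy
    exact ⟨(hmul _ (hχ1 (T a y) (hcov _ (hTy y hy))).1).le, hJg y hy⟩

end DH
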