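import Pool.Agent.helper5.DH.Spec
import Pool.Agent.helper98.ILF.Density

set_option autoImplicit false

open Complex Metric Set Filter Topology MeasureTheory Pool.Agent.helper98.ILF Pool.Agent.helper16.Multibrot
open HY (UD T S hd UN RM VV SG Orb fz)

noncomputable section

namespace DH

theorem PUL_unit (a : ℂ) (ha : a ≠ 0) : ‖(starRingEnd ℂ) a / a‖ = 1 := by
  rw [norm_div, Complex.norm_conj, div_self (norm_ne_zero_iff.2 ha)]

theorem PUL_pt (m a b e : ℂ) (δ : ℝ) (ha : a ≠ 0) (he : ‖e‖ = 1)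
    (h : ‖(starRingEnd ℂ) a / a - b‖ ≤ δ) : ‖m * (starRingEnd ℂ) a / a - e * b‖ ≤ ‖m - e‖ + δ := by
  have h1 : m * (starRingEnd ℂ) a / a - e * b = (m - e) * ((starRingEnd ℂ) a / a) + e * ((starRingEnd ℂ) a / a - b) := by
    ring
  rw [h1]
  refine (norm_add_le _ _).trans ?_
  rw [norm_mul, norm_mul, PUL_unit a ha, he, mul_one, one_mul]
  linarith

/-- the rotation. -/
theorem PUL_eta (n : ℕ) (hn : 2 ≤ n) : ∃ η : ℂ, ‖η‖ = 1 ∧ η ^ (n - 1) = Complex.I := by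
  have h1 : ((n - 1 : ℕ) : ℂ) ≠ 0 := by
    rw [Nat.cast_ne_zero]; omega
  refine ⟨Complex.exp (((Real.pi / 2 / ((n - 1 : ℕ) : ℝ) : ℝ) : ℂ) * Complex.I), Complex.norm_exp_ofReal_mul_I _, ?_⟩
  rw [← Complex.exp_nat_mul]
  have h2 : ((n - 1 : ℕ) : ℂ) * (((Real.pi / 2 / ((n - 1 : ℕ) : ℝ) : ℝ) : ℂ) * Complex.I) = (Real.pi / 2 : ℂ) * Complex.I := by
    push_cast
    field_simp
  rw [h2, Complex.exp_mul_I]
  simp

theorem PUL_meas {h : ℂ → ℝ} {g : ℂ → ℂ} {D : Set ℂ} (hh : Measurable h) (hD : MeasurableSet D) (hg : ContinuousOn g D) :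
    AEStronglyMeasurable (fun y => h (g y)) (volume.restrict D) :=
  (hh.comp_aemeasurable (hg.aemeasurable hD)).aestronglyMeasurable

theorem PUL_int {h : ℂ → ℝ} {g : ℂ → ℂ} {D : Set ℂ} (hh : Measurable h) (hb : ∀ z, 0 ≤ h z ∧ h z ≤ 2)
    (hD : MeasurableSet D) (hv : volume D ≠ ⊤) (hg : ContinuousOn g D) :
    IntegrableOn (fun y => h (g y)) D := by
  have : IsFiniteMeasure (volume.restrict D) := ⟨by rw [Measure.restrict_apply_univ]; exact lt_top_iff_ne_top.2 hv⟩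
  refine Integrable.of_bound (PUL_meas hh hD hg) 2 ?_
  exact Filter.Eventually.of_forall fun y => by
    rw [Real.norm_of_nonneg (hb _).1]; exact (hb _).2

/-- first integral. -/
theorem PUL_L1 {C₁ C₃ : ℝ} (hC₁ : 1 ≤ C₁)
    (hCVX : ∀ (X : ℂ → ℂ) (h : ℂ → ℝ) (s : ℝ), DifferentiableOn ℂ X UD → InjOn X UD →
      Measurable h → (∀ z, 0 ≤ h z ∧ h z ≤ 2) → 0 < s → s ≤ 1 / 2 →
      (∫ y in ball (0 : ℂ) s, h (X y)) * ‖deriv X 0‖ ^ 2 ≤ C₁ * ∫ z in X '' ball (0 : ℂ) s, h z)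
    (hC₃ : ∀ X : ℂ → ℂ, DifferentiableOn ℂ X UD → InjOn X UD → ∀ x ∈ ball (0 : ℂ) (3 / 4),
      ‖X x - X 0‖ ≤ C₃ * ‖x‖ * ‖deriv X 0‖)
    (hKO0 : V3.KO0_stmt)
    (K ε s : ℝ) (hK : C₃ ≤ K) (hK1 : 1 ≤ K) (hs : 0 < s) (hs2 : s ≤ 1 / 2) (h : ℂ → ℝ) (hh : Measurable h)
    (hb : ∀ z, 0 ≤ h z ∧ h z ≤ 2) (X : ℂ → ℂ) (hX : DifferentiableOn ℂ X UD) (hXi : InjOn X UD) (hX0 : X 0 = 0)
    (hI : ∫ z in ball (0 : ℂ) (K * ‖deriv X 0‖), h z ≤ ε * ‖deriv X 0‖ ^ 2) (D : Set ℂ)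
    (hDs : D ⊆ ball 0 s) : ∫ y in D, h (X y) ≤ C₁ * ε := by
  have h0U : (0 : ℂ) ∈ UD := mem_ball_self one_pos
  have hsU : ball (0 : ℂ) s ⊆ UD := ball_subset_ball (by linarith)
  have hd0 : 0 < ‖deriv X 0‖ := norm_pos_iff.2 (hKO0 X UD isOpen_ball hX hXi 0 h0U)
  have h1 := hCVX X h s hX hXi hh hb hs hs2
  have hsub : X '' ball (0 : ℂ) s ⊆ ball 0 (K * ‖deriv X 0‖) := by
    rintro _ ⟨y, hy, rfl⟩
    have hy1 : ‖y‖ < s := mem_ball_zero_iff.1 hy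
    have h2 := hC₃ X hX hXi y (mem_ball_zero_iff.2 (by linarith))
    rw [hX0, sub_zero] at h2
    rw [mem_ball_zero_iff]
    have hK0 : 0 < K := by linarith
    have h3 : C₃ * ‖y‖ ≤ K * ‖y‖ := mul_le_mul_of_nonneg_right hK (norm_nonneg _)
    have h4 : K * ‖y‖ < K * 1 := mul_lt_mul_of_pos_left (by linarith) hK0
    calc ‖X y‖ ≤ C₃ * ‖y‖ * ‖deriv X 0‖ := h2
      _ ≤ K * ‖y‖ * ‖deriv X 0‖ := mul_le_mul_of_nonneg_right h3 hd0.le
      _ < K * 1 * ‖deriv X 0‖ := mul_lt_mul_of_pos_right h4 hd0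
      _ = K * ‖deriv X 0‖ := by ring
  have hint : IntegrableOn h (ball (0 : ℂ) (K * ‖deriv X 0‖)) :=
    PUL_int (g := fun z => z) hh hb measurableSet_ball measure_ball_lt_top.ne continuousOn_id
  have h5 : ∫ z in X '' ball (0 : ℂ) s, h z ≤ ∫ z in ball (0 : ℂ) (K * ‖deriv X 0‖), h z :=
    setIntegral_mono_set hint (Filter.Eventually.of_forall fun z => (hb z).1) hsub.eventuallyLE
  have h6 : ∫ y in D, h (X y) ≤ ∫ y in ball (0 : ℂ) s, h (X y) :=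
    setIntegral_mono_set (PUL_int hh hb measurableSet_ball measure_ball_lt_top.ne (hX.continuousOn.mono hsU))
      (Filter.Eventually.of_forall fun z => (hb _).1) hDs.eventuallyLE
  have h7 : (∫ y in D, h (X y)) * ‖deriv X 0‖ ^ 2 ≤ (C₁ * ε) * ‖deriv X 0‖ ^ 2 := by
    calc (∫ y in D, h (X y)) * ‖deriv X 0‖ ^ 2 ≤ (∫ y in ball (0 : ℂ) s, h (X y)) * ‖deriv X 0‖ ^ 2 :=
          mul_le_mul_of_nonneg_right h6 (by positivity)
      _ ≤ C₁ * ∫ z in X '' ball (0 : ℂ) s, h z := h1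
      _ ≤ C₁ * (ε * ‖deriv X 0‖ ^ 2) := mul_le_mul_of_nonneg_left (h5.trans hI) (by linarith)
      _ = _ := by ring
  exact le_of_mul_le_mul_right h7 (by positivity)

/-- a root of unity near `1`. -/
theorem PUL_root (n : ℕ) (hn : 2 ≤ n) (ζ : ℂ) (h1 : ζ ^ n = 1) (h2 : ‖ζ - 1‖ < 1 / n) : ζ = 1 := by
  have hn0 : (0 : ℝ) < n := by positivity
  have hζ : ‖ζ‖ = 1 := norm_eq_one_of_pow_eq_one h1 (by omega)
  by_contra hne
  have h3 : ∀ j : ℕ, ‖ζ ^ j - 1‖ ≤ j * ‖ζ - 1‖ := by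
    intro j
    induction j with
    | zero => simp
    | succ j ih =>
      have h4 : ζ ^ (j + 1) - 1 = ζ * (ζ ^ j - 1) + (ζ - 1) := by ring
      rw [h4]
      refine (norm_add_le _ _).trans ?_
      rw [norm_mul, hζ, one_mul]
      push_cast
      linarith
  have h5 : ∑ j ∈ Finset.range n, ζ ^ j = 0 := by
    have h6 := geom_sum_mul ζ n
    rw [h1, sub_self] at h6
    exact (mul_eq_zero.1 h6).resolve_right (sub_ne_zero.2 hne)
  have h7 : ‖∑ j ∈ Finset.range n, (ζ ^ j - 1)‖ < n := by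
    refine (norm_sum_le _ _).trans_lt ?_
    have h8 : ∀ j ∈ Finset.range n, ‖ζ ^ j - 1‖ < 1 := by
      intro j hj
      have h9 : (j : ℝ) < n := by exact_mod_cast Finset.mem_range.1 hj
      rcases Nat.eq_zero_or_pos j with h0 | h0
      · rw [h0]; simp
      · have h10 : (0 : ℝ) < j := by exact_mod_cast h0
        calc ‖ζ ^ j - 1‖ ≤ j * ‖ζ - 1‖ := h3 j
          _ < j * (1 / n) := mul_lt_mul_of_pos_left h2 h10
          _ = j / n := by ring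
          _ < 1 := (div_lt_one hn0).2 h9
    calc ∑ j ∈ Finset.range n, ‖ζ ^ j - 1‖ < ∑ _j ∈ Finset.range n, (1 : ℝ) :=
          Finset.sum_lt_sum_of_nonempty ⟨0, Finset.mem_range.2 (by omega)⟩ h8
      _ = n := by simp
  rw [Finset.sum_sub_distrib, h5] at h7
  simp at h7

/-- second integral. -/
theorem PUL_L2 {C₃ : ℝ} (hC₃1 : 1 ≤ C₃)
    (hC₃ : ∀ X : ℂ → ℂ, DifferentiableOn ℂ X UD → InjOn X UD → ∀ x ∈ ball (0 : ℂ) (3 / 4),
      ‖deriv X 0‖ ≤ C₃ * ‖deriv X x‖)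
    (n : ℕ) (hn : 2 ≤ n) (K ε s ρ : ℝ) (hK1 : 1 ≤ K) (hs : 0 < s) (hs2 : s ≤ 1 / 2) (h : ℂ → ℝ) (hh : Measurable h)
    (hb : ∀ z, 0 ≤ h z ∧ h z ≤ 2) (Ψ : ℂ → ℂ) (hΨ : DifferentiableOn ℂ Ψ UD) (hΨi : InjOn Ψ UD) (hρ : 0 < ρ)
    (hΨK : ∀ y ∈ UD, ‖Ψ y‖ < K * ρ) (hΨd : ρ ≤ K * ‖deriv Ψ 0‖)
    (hI : ∫ z in ball (0 : ℂ) (K * ρ), h z ≤ ε * ρ ^ 2) :
    ((s / 4) ^ (n - 1) / (K * C₃)) ^ 2 * ∫ y in ball ((s / 2 : ℝ) : ℂ) (s / (8 * n)), h (Ψ (y ^ n)) ≤ ε := by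
  have hn0 : (0 : ℝ) < n := by positivity
  have hn2 : (2 : ℝ) ≤ n := by exact_mod_cast hn
  obtain ⟨D, hD⟩ : ∃ D : Set ℂ, D = ball ((s / 2 : ℝ) : ℂ) (s / (8 * n)) := ⟨_, rfl⟩
  have hDm : MeasurableSet D := by rw [hD]; exact measurableSet_ball
  have hDo : IsOpen D := by rw [hD]; exact isOpen_ball
  have hrad : s / (8 * n) ≤ s / 16 := by
    apply div_le_div_of_nonneg_left hs.le (by norm_num) (by linarith)
  have hDn : ∀ y ∈ D, s / 4 ≤ ‖y‖ ∧ ‖y‖ < s ∧ s / 4 < y.re ∧ |y.im| < s / (8 * n) := by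
    intro y hy
    rw [hD, mem_ball, dist_eq_norm] at hy
    have h1 : ‖((s / 2 : ℝ) : ℂ)‖ = s / 2 := by rw [Complex.norm_real, Real.norm_of_nonneg (by linarith)]
    have h2 := norm_sub_norm_le (((s / 2 : ℝ) : ℂ)) y
    have h3 := norm_sub_norm_le y (((s / 2 : ℝ) : ℂ))
    rw [norm_sub_rev] at h2
    have h4 := Complex.abs_re_le_norm (y - ((s / 2 : ℝ) : ℂ))
    have h5 := Complex.abs_im_le_norm (y - ((s / 2 : ℝ) : ℂ))
    rw [Complex.sub_re, Complex.ofReal_re] at h4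
    rw [Complex.sub_im, Complex.ofReal_im, sub_zero] at h5
    have h6 := (abs_le.1 h4).1
    exact ⟨by linarith, by linarith, by linarith, by linarith⟩
  have hDU : D ⊆ UD := fun y hy => mem_ball_zero_iff.2 (by linarith [(hDn y hy).2.1])
  have hpow : ∀ y ∈ D, y ^ n ∈ ball (0 : ℂ) (3 / 4) := by
    intro y hy
    obtain ⟨h1, h2, -, -⟩ := hDn y hy
    rw [mem_ball_zero_iff, norm_pow]
    calc ‖y‖ ^ n ≤ ‖y‖ ^ 1 := pow_le_pow_of_le_one (norm_nonneg _) (by linarith) (by omega)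
      _ < 3 / 4 := by rw [pow_one]; linarith
  have hpowU : ∀ y ∈ D, y ^ n ∈ UD := fun y hy => ball_subset_ball (by norm_num) (hpow y hy)
  have hne : ∀ y ∈ D, y ≠ 0 := by
    intro y hy h0
    have := (hDn y hy).1
    rw [h0, norm_zero] at this
    linarith
  -- derivative
  have hder : ∀ y ∈ D, HasDerivAt (fun x => Ψ (x ^ n)) (deriv Ψ (y ^ n) * (n * y ^ (n - 1))) y := by
    intro y hy
    have h1 : HasDerivAt Ψ (deriv Ψ (y ^ n)) (y ^ n) :=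
      (hΨ.differentiableAt (isOpen_ball.mem_nhds (hpowU y hy))).hasDerivAt
    exact h1.comp y (hasDerivAt_pow n y)
  -- injectivity
  have hinj : InjOn (fun x : ℂ => Ψ (x ^ n)) D := by
    intro y hy z hz hyz
    have h1 : y ^ n = z ^ n := hΨi (hpowU y hy) (hpowU z hz) hyz
    have hy0 := hne y hy
    have h2 : z / y = 1 := by
      apply PUL_root n hn
      · rw [div_pow, ← h1, div_self (pow_ne_zero _ hy0)]
      · have h3 : z / y - 1 = (z - y) / y := by field_simp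
        have h4 : dist z y < s / (8 * n) + s / (8 * n) := by
          rw [hD, mem_ball] at hy hz
          refine (dist_triangle z ((s / 2 : ℝ) : ℂ) y).trans_lt ?_
          rw [dist_comm _ y]
          linarith
        have h5 := (hDn y hy).1
        have h6 : 0 < ‖y‖ := by linarith
        rw [h3, norm_div, div_lt_iff₀ h6]
        rw [dist_eq_norm] at h4
        have h7 : s / (8 * n) + s / (8 * n) = 1 / n * (s / 4) := by field_simp; ring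
        rw [h7] at h4
        have h8 : 1 / (n : ℝ) * (s / 4) ≤ 1 / n * ‖y‖ := mul_le_mul_of_nonneg_left h5 (by positivity)
        linarith
    have h9 := (div_eq_one_iff_eq hy0).1 h2
    exact h9.symm
  have hfd : ∀ y ∈ D, HasFDerivWithinAt (fun x : ℂ => Ψ (x ^ n))
      ((ContinuousLinearMap.toSpanSingleton ℂ (deriv Ψ (y ^ n) * (n * y ^ (n - 1)))).restrictScalars ℝ : ℂ →L[ℝ] ℂ)
      D y := by
    intro y hy
    exact (((hder y hy).hasFDerivAt).restrictScalars ℝ).hasFDerivWithinAt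
  have h1 := integral_image_eq_integral_abs_det_fderiv_smul volume hDm hfd hinj h
  have hint : IntegrableOn h (ball (0 : ℂ) (K * ρ)) :=
    PUL_int (g := fun z => z) hh hb measurableSet_ball measure_ball_lt_top.ne continuousOn_id
  have hsub : (fun x : ℂ => Ψ (x ^ n)) '' D ⊆ ball 0 (K * ρ) := by
    rintro _ ⟨y, hy, rfl⟩
    exact mem_ball_zero_iff.2 (hΨK _ (hpowU y hy))
  have h2 : ∫ z in (fun x : ℂ => Ψ (x ^ n)) '' D, h z ≤ ε * ρ ^ 2 :=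
    (setIntegral_mono_set hint (Filter.Eventually.of_forall fun z => (hb z).1) hsub.eventuallyLE).trans hI
  have h3 := (integrableOn_image_iff_integrableOn_abs_det_fderiv_smul volume hDm hfd hinj h).1
    (hint.mono_set hsub)
  obtain ⟨κ, hκ⟩ : ∃ κ : ℝ, κ = (s / 4) ^ (n - 1) / (K * C₃) := ⟨_, rfl⟩
  have hκ0 : 0 < κ := by rw [hκ]; positivity
  have hlow : ∀ y ∈ D, κ * ρ ≤ ‖deriv Ψ (y ^ n) * (n * y ^ (n - 1))‖ := by
    intro y hy
    have h4 := hC₃ Ψ hΨ hΨi (y ^ n) (hpow y hy)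
    have h5 : (s / 4) ^ (n - 1) ≤ ‖y‖ ^ (n - 1) := pow_le_pow_left₀ (by positivity) (hDn y hy).1 _
    rw [norm_mul, norm_mul, norm_pow, Complex.norm_natCast]
    have h6 : ρ / (K * C₃) ≤ ‖deriv Ψ (y ^ n)‖ := by
      rw [div_le_iff₀ (by positivity)]
      have h7 : K * ‖deriv Ψ 0‖ ≤ K * (C₃ * ‖deriv Ψ (y ^ n)‖) := mul_le_mul_of_nonneg_left h4 (by linarith)
      nlinarith
    have h8 : (s / 4) ^ (n - 1) ≤ n * ‖y‖ ^ (n - 1) := by
      have : (0 : ℝ) ≤ ‖y‖ ^ (n - 1) := by positivity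
      nlinarith
    calc κ * ρ = ρ / (K * C₃) * (s / 4) ^ (n - 1) := by rw [hκ]; ring
      _ ≤ ‖deriv Ψ (y ^ n)‖ * (n * ‖y‖ ^ (n - 1)) := by gcongr
  have h4 : ∫ y in D, (κ * ρ) ^ 2 * h (Ψ (y ^ n)) ≤ ∫ y in D,
      (|((ContinuousLinearMap.toSpanSingleton ℂ (deriv Ψ (y ^ n) * (n * y ^ (n - 1)))).restrictScalars ℝ :
        ℂ →L[ℝ] ℂ).det| • h (Ψ (y ^ n))) := by
    refine integral_mono_of_nonneg (Filter.Eventually.of_forall fun y => mul_nonneg (by positivity) (hb _).1) h3 ?_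
    rw [EventuallyLE, ae_restrict_iff' hDm]
    refine Filter.Eventually.of_forall fun y hy => ?_
    rw [det_smul, abs_of_nonneg (by positivity), smul_eq_mul]
    exact mul_le_mul_of_nonneg_right (pow_le_pow_left₀ (by positivity) (hlow y hy) 2) (hb _).1
  rw [← h1, integral_const_mul] at h4
  have h5 := h4.trans h2
  rw [← hD, ← hκ]
  have h6 : ρ ^ 2 * (κ ^ 2 * ∫ y in D, h (Ψ (y ^ n))) ≤ ρ ^ 2 * ε := by
    calc ρ ^ 2 * (κ ^ 2 * ∫ y in D, h (Ψ (y ^ n))) = (κ * ρ) ^ 2 * ∫ y in D, h (Ψ (y ^ n)) := by ring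
      _ ≤ ε * ρ ^ 2 := h5
      _ = ρ ^ 2 * ε := by ring
  exact le_of_mul_le_mul_left h6 (by positivity)

theorem PUL_beta (n : ℕ) (η y : ℂ) (hη : η ^ (n - 1) = Complex.I) :
    (starRingEnd ℂ) ((η * y) ^ (n - 1)) / (η * y) ^ (n - 1) = -((starRingEnd ℂ) (y ^ (n - 1)) / y ^ (n - 1)) := by
  rw [mul_pow, hη, map_mul, Complex.conj_I, mul_div_mul_comm]
  have : -Complex.I / Complex.I = -1 := by rw [neg_div, div_self Complex.I_ne_zero]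
  rw [this]
  ring

theorem PUL (hCVX : CVX_stmt) (hARG : ARG_stmt) (hKO0 : V3.KO0_stmt) (hKO3 : V3.KO3_stmt) : PUL_stmt := by
  obtain ⟨C₁, hC₁, hcvx⟩ := hCVX
  obtain ⟨C₂, hC₂, harg⟩ := hARG
  obtain ⟨C₃, hC₃, hko⟩ := hKO3 (1 / 4) (by norm_num) (by norm_num)
  refine ⟨C₃, hC₃, fun n hn K hK => ?_⟩
  have hK1 : 1 ≤ K := hC₃.trans hK
  have hn0 : (0 : ℝ) < n := by positivity
  obtain ⟨s, hs⟩ : ∃ s : ℝ, s = 1 / (4 * C₂) := ⟨_, rfl⟩
  have hs0 : 0 < s := by rw [hs]; positivity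
  have hsC : 4 * C₂ * s = 1 := by rw [hs]; field_simp
  have hs2 : s ≤ 1 / 2 := by nlinarith
  obtain ⟨D, hD⟩ : ∃ D : Set ℂ, D = ball ((s / 2 : ℝ) : ℂ) (s / (8 * n)) := ⟨_, rfl⟩
  have hDm : MeasurableSet D := by rw [hD]; exact measurableSet_ball
  have hrad0 : 0 < s / (8 * n) := by positivity
  have hvt : volume D ≠ ⊤ := by rw [hD]; exact measure_ball_lt_top.ne
  obtain ⟨v, hv⟩ : ∃ v : ℝ, v = volume.real D := ⟨_, rfl⟩
  have hv0 : 0 < v := by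
    rw [hv, hD]
    exact ENNReal.toReal_pos (measure_ball_pos _ _ hrad0).ne' measure_ball_lt_top.ne
  obtain ⟨κ, hκ⟩ : ∃ κ : ℝ, κ = ((s / 4) ^ (n - 1) / (K * C₃)) ^ 2 := ⟨_, rfl⟩
  have hκ0 : 0 < κ := by rw [hκ]; positivity
  obtain ⟨ε, hε⟩ : ∃ ε : ℝ, ε = v / (2 * (2 * C₁ + 2 / κ)) := ⟨_, rfl⟩
  have hε0 : 0 < ε := by rw [hε]; positivity
  have hεv : (2 * C₁ + 2 / κ) * ε = v / 2 := by rw [hε]; field_simp
  refine ⟨ε, hε0, ?_⟩
  intro μ X Ψ ρ e e' hμ hμ1 hX hXi hX0 hΨ hΨi hρ hΨK hΨd hae he he' hI hI'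
  have h0U : (0 : ℂ) ∈ UD := mem_ball_self one_pos
  have hn2 : (2 : ℝ) ≤ n := by exact_mod_cast hn
  have hrad : s / (8 * n) ≤ s / 16 := by
    apply div_le_div_of_nonneg_left hs0.le (by norm_num) (by linarith)
  have hDn : ∀ y ∈ D, s / 4 ≤ ‖y‖ ∧ ‖y‖ < s := by
    intro y hy
    rw [hD, mem_ball, dist_eq_norm] at hy
    have h1 : ‖((s / 2 : ℝ) : ℂ)‖ = s / 2 := by rw [Complex.norm_real, Real.norm_of_nonneg (by linarith)]
    have h2 := norm_sub_norm_le (((s / 2 : ℝ) : ℂ)) y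
    have h3 := norm_sub_norm_le y (((s / 2 : ℝ) : ℂ))
    rw [norm_sub_rev] at h2
    exact ⟨by linarith, by linarith⟩
  have hDs : D ⊆ ball 0 s := fun y hy => mem_ball_zero_iff.2 (hDn y hy).2
  have hDU : D ⊆ UD := fun y hy => mem_ball_zero_iff.2 (by linarith [(hDn y hy).2])
  obtain ⟨η, hη1, hη⟩ := PUL_eta n hn
  have hη0 : η ≠ 0 := norm_ne_zero_iff.1 (by rw [hη1]; norm_num)
  have hrotU : ∀ y ∈ UD, η * y ∈ UD := fun y hy => mem_ball_zero_iff.2 (by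
    rw [norm_mul, hη1, one_mul]; exact mem_ball_zero_iff.1 hy)
  -- the two scalar functions
  have hh : ∀ e : ℂ, ‖e‖ = 1 → Measurable (fun z => ‖μ z - e‖) ∧ ∀ z, 0 ≤ ‖μ z - e‖ ∧ ‖μ z - e‖ ≤ 2 := by
    intro e he
    refine ⟨(hμ.sub_const e).norm, fun z => ⟨norm_nonneg _, (norm_sub_le _ _).trans ?_⟩⟩
    rw [he]
    linarith [hμ1 z]
  obtain ⟨hm1, hb1⟩ := hh e he
  obtain ⟨hm2, hb2⟩ := hh e' he'
  -- derivative of the rotated maps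
  have hrotd : ∀ F : ℂ → ℂ, DifferentiableOn ℂ F UD → ∀ ω : ℂ, ‖ω‖ = 1 →
      DifferentiableOn ℂ (fun y => F (ω * y)) UD ∧ (InjOn F UD → InjOn (fun y => F (ω * y)) UD) ∧
      ‖deriv (fun y => F (ω * y)) 0‖ = ‖deriv F 0‖ := by
    intro F hF ω hω
    have hω0 : ω ≠ 0 := norm_ne_zero_iff.1 (by rw [hω]; norm_num)
    have hr : MapsTo (fun y => ω * y) UD UD := fun y hy => mem_ball_zero_iff.2 (by
      rw [norm_mul, hω, one_mul]; exact mem_ball_zero_iff.1 hy)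
    refine ⟨hF.comp (by fun_prop) hr, fun hFi y hy z hz hyz => mul_left_cancel₀ hω0 (hFi (hr hy) (hr hz) hyz), ?_⟩
    have h1 : HasDerivAt F (deriv F 0) (ω * 0) := by
      rw [mul_zero]; exact (hF.differentiableAt (isOpen_ball.mem_nhds h0U)).hasDerivAt
    have h2 : HasDerivAt (fun y : ℂ => ω * y) ω 0 := by simpa using (hasDerivAt_id (0 : ℂ)).const_mul ω
    have h3 : HasDerivAt (fun y => F (ω * y)) (deriv F 0 * ω) 0 := h1.comp (0 : ℂ) h2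
    rw [h3.deriv, norm_mul, hω, mul_one]
  -- the four integrals
  have hcvx' : ∀ (X : ℂ → ℂ) (h : ℂ → ℝ) (s : ℝ), DifferentiableOn ℂ X UD → InjOn X UD →
      Measurable h → (∀ z, 0 ≤ h z ∧ h z ≤ 2) → 0 < s → s ≤ 1 / 2 →
      (∫ y in ball (0 : ℂ) s, h (X y)) * ‖deriv X 0‖ ^ 2 ≤ C₁ * ∫ z in X '' ball (0 : ℂ) s, h z :=
    fun X h s a1 a2 a3 a4 a5 a6 => (hcvx X h s a1 a2 a3 a4 a5 a6).1
  have hko1 : ∀ X : ℂ → ℂ, DifferentiableOn ℂ X UD → InjOn X UD → ∀ x ∈ ball (0 : ℂ) (3 / 4),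
      ‖X x - X 0‖ ≤ C₃ * ‖x‖ * ‖deriv X 0‖ := by
    intro X hX hXi x hx
    have := ((hko X 0 1 one_pos hX hXi).2 x (by
      rw [mul_one]; norm_num; exact mem_ball_zero_iff.1 hx)).2.2.1
    rwa [sub_zero] at this
  have hko2 : ∀ X : ℂ → ℂ, DifferentiableOn ℂ X UD → InjOn X UD → ∀ x ∈ ball (0 : ℂ) (3 / 4),
      ‖deriv X 0‖ ≤ C₃ * ‖deriv X x‖ := by
    intro X hX hXi x hx
    exact ((hko X 0 1 one_pos hX hXi).2 x (by
      rw [mul_one]; norm_num; exact mem_ball_zero_iff.1 hx)).2.1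
  have I2 : ∫ y in D, ‖μ (X y) - e‖ ≤ C₁ * ε :=
    PUL_L1 hC₁ hcvx' hko1 hKO0 K ε s hK hK1 hs0 hs2 _ hm1 hb1 X hX hXi hX0 hI D hDs
  obtain ⟨r1, r2, r3⟩ := hrotd X hX η hη1
  have I3 : ∫ y in D, ‖μ (X (η * y)) - e‖ ≤ C₁ * ε :=
    PUL_L1 hC₁ hcvx' hko1 hKO0 K ε s hK hK1 hs0 hs2 _ hm1 hb1 (fun y => X (η * y)) r1 (r2 hXi)
      (by simp [hX0]) (by rw [r3]; exact hI) D hDs
  have I1 : ∫ y in D, ‖μ (Ψ (y ^ n)) - e'‖ ≤ ε / κ := by
    have := PUL_L2 hC₃ hko2 n hn K ε s ρ hK1 hs0 hs2 _ hm2 hb2 Ψ hΨ hΨi hρ hΨK hΨd hI'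
    rw [← hD, ← hκ] at this
    rw [le_div_iff₀ hκ0]
    linarith
  have hηn : ‖η ^ n‖ = 1 := by rw [norm_pow, hη1, one_pow]
  obtain ⟨s1, s2, s3⟩ := hrotd Ψ hΨ (η ^ n) hηn
  have I4 : ∫ y in D, ‖μ (Ψ ((η * y) ^ n)) - e'‖ ≤ ε / κ := by
    have := PUL_L2 hC₃ hko2 n hn K ε s ρ hK1 hs0 hs2 _ hm2 hb2 (fun y => Ψ (η ^ n * y)) s1 (s2 hΨi) hρ
      (fun y hy => hΨK _ (mem_ball_zero_iff.2 (by rw [norm_mul, hηn, one_mul]; exact mem_ball_zero_iff.1 hy)))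
      (by rw [s3]; exact hΨd) hI'
    rw [← hD, ← hκ] at this
    rw [le_div_iff₀ hκ0]
    simp only [mul_pow]
    linarith
  -- pointwise
  have ha1 := hKO0 X UD isOpen_ball hX hXi
  have hb1' := hKO0 Ψ UD isOpen_ball hΨ hΨi
  have pw1 : ∀ y : ℂ, ‖y‖ < s → ‖μ (X y) * (starRingEnd ℂ) (deriv X y) / deriv X y -
      e * ((starRingEnd ℂ) (deriv X 0) / deriv X 0)‖ ≤ ‖μ (X y) - e‖ + C₂ * s := by
    intro y hy
    refine PUL_pt _ _ _ _ _ (ha1 y (mem_ball_zero_iff.2 (by linarith))) he ?_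
    refine (harg X hX hXi y (by linarith)).trans ?_
    have : 0 ≤ C₂ := by linarith
    exact mul_le_mul_of_nonneg_left hy.le this
  have hpown : ∀ y : ℂ, ‖y‖ < s → ‖y ^ n‖ ≤ s ∧ y ^ n ∈ UD := by
    intro y hy
    have h1 : ‖y ^ n‖ ≤ s := by
      rw [norm_pow]
      calc ‖y‖ ^ n ≤ ‖y‖ ^ 1 := pow_le_pow_of_le_one (norm_nonneg _) (by linarith) (by omega)
        _ ≤ s := by rw [pow_one]; exact hy.le
    exact ⟨h1, mem_ball_zero_iff.2 (by linarith)⟩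
  have pw2 : ∀ y : ℂ, ‖y‖ < s → y ≠ 0 → ‖μ (Ψ (y ^ n)) * (starRingEnd ℂ) (deriv (fun x => Ψ (x ^ n)) y) /
      deriv (fun x => Ψ (x ^ n)) y - e' * ((starRingEnd ℂ) (deriv Ψ 0) / deriv Ψ 0 *
        ((starRingEnd ℂ) (y ^ (n - 1)) / y ^ (n - 1)))‖ ≤ ‖μ (Ψ (y ^ n)) - e'‖ + C₂ * s := by
    intro y hy hy0
    obtain ⟨p1, p2⟩ := hpown y hy
    have h1 : HasDerivAt (fun x => Ψ (x ^ n)) (deriv Ψ (y ^ n) * (n * y ^ (n - 1))) y :=
      ((hΨ.differentiableAt (isOpen_ball.mem_nhds p2)).hasDerivAt).comp y (hasDerivAt_pow n y)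
    have hnc : (n : ℂ) ≠ 0 := by exact_mod_cast hn0.ne'
    have hyn : y ^ (n - 1) ≠ 0 := pow_ne_zero _ hy0
    have h2 : deriv Ψ (y ^ n) ≠ 0 := hb1' _ p2
    rw [h1.deriv]
    refine PUL_pt _ _ _ _ _ (mul_ne_zero h2 (mul_ne_zero hnc hyn)) he' ?_
    have h3 : (starRingEnd ℂ) (deriv Ψ (y ^ n) * (n * y ^ (n - 1))) / (deriv Ψ (y ^ n) * (n * y ^ (n - 1))) =
        (starRingEnd ℂ) (deriv Ψ (y ^ n)) / deriv Ψ (y ^ n) * ((starRingEnd ℂ) (y ^ (n - 1)) / y ^ (n - 1)) := by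
      rw [map_mul, map_mul, Complex.conj_natCast]
      field_simp
    rw [h3, ← sub_mul, norm_mul, PUL_unit _ hyn, mul_one]
    refine (harg Ψ hΨ hΨi _ (by linarith)).trans ?_
    have : 0 ≤ C₂ := by linarith
    exact mul_le_mul_of_nonneg_left p1 this
  -- the almost everywhere inequality on `D`
  have hae' : ∀ᵐ y : ℂ, η * y ∈ UD → μ (X (η * y)) * (starRingEnd ℂ) (deriv X (η * y)) / deriv X (η * y) =
      μ (Ψ ((η * y) ^ n)) * (starRingEnd ℂ) (deriv (fun x => Ψ (x ^ n)) (η * y)) / deriv (fun x => Ψ (x ^ n)) (η * y) := by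
    have hmp := (rotation (⟨η, mem_sphere_zero_iff_norm.2 hη1⟩ : Circle)).measurePreserving
    have h1 := hmp.quasiMeasurePreserving.ae hae
    filter_upwards [h1] with y hy
    exact hy
  have hpt : ∀ᵐ y : ℂ, y ∈ D → (2 : ℝ) ≤ ‖μ (Ψ (y ^ n)) - e'‖ + ‖μ (X y) - e‖ + ‖μ (X (η * y)) - e‖ +
      ‖μ (Ψ ((η * y) ^ n)) - e'‖ + 4 * (C₂ * s) := by
    filter_upwards [hae, hae'] with y hy1 hy2 hyD
    have hyU := hDU hyD
    have hys := (hDn y hyD).2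
    have hy0 : y ≠ 0 := by
      intro h
      have := (hDn y hyD).1
      rw [h, norm_zero] at this
      linarith
    have hηs : ‖η * y‖ < s := by rw [norm_mul, hη1, one_mul]; exact hys
    have e1 := hy1 hyU
    have e2 := hy2 (hrotU y hyU)
    have a1 := pw1 y hys
    have a2 := pw1 (η * y) hηs
    have a3 := pw2 y hys hy0
    have a4 := pw2 (η * y) hηs (mul_ne_zero hη0 hy0)
    rw [PUL_beta n η y hη] at a4
    rw [e1] at a1
    rw [e2] at a2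
    obtain ⟨P, hP⟩ : ∃ P : ℂ, P = μ (Ψ (y ^ n)) * (starRingEnd ℂ) (deriv (fun x => Ψ (x ^ n)) y) /
      deriv (fun x => Ψ (x ^ n)) y := ⟨_, rfl⟩
    obtain ⟨Q, hQ⟩ : ∃ Q : ℂ, Q = μ (Ψ ((η * y) ^ n)) * (starRingEnd ℂ) (deriv (fun x => Ψ (x ^ n)) (η * y)) /
      deriv (fun x => Ψ (x ^ n)) (η * y) := ⟨_, rfl⟩
    obtain ⟨W, hW⟩ : ∃ W : ℂ, W = e' * ((starRingEnd ℂ) (deriv Ψ 0) / deriv Ψ 0 *
        ((starRingEnd ℂ) (y ^ (n - 1)) / y ^ (n - 1))) := ⟨_, rfl⟩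
    obtain ⟨E, hE⟩ : ∃ E : ℂ, E = e * ((starRingEnd ℂ) (deriv X 0) / deriv X 0) := ⟨_, rfl⟩
    have hWn : ‖W‖ = 1 := by
      rw [hW, norm_mul, norm_mul, he', PUL_unit _ (hb1' 0 h0U), PUL_unit _ (pow_ne_zero _ hy0)]
      norm_num
    have hneg : e' * ((starRingEnd ℂ) (deriv Ψ 0) / deriv Ψ 0 * -((starRingEnd ℂ) (y ^ (n - 1)) / y ^ (n - 1))) = -W := by
      rw [hW]; ring
    rw [hneg, ← hQ] at a4
    rw [← hP, ← hW] at a3
    rw [← hP, ← hE] at a1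
    rw [← hQ, ← hE] at a2
    have h2W : (2 : ℝ) = ‖(W - P) + (P - E) + (E - Q) + (Q - -W)‖ := by
      have : (W - P) + (P - E) + (E - Q) + (Q - -W) = 2 * W := by ring
      rw [this, norm_mul, hWn]
      simp
    have h3 : ‖(W - P) + (P - E) + (E - Q) + (Q - -W)‖ ≤ ‖P - W‖ + ‖P - E‖ + ‖Q - E‖ + ‖Q - -W‖ := by
      refine (norm_add_le _ _).trans ?_
      refine add_le_add_left ((norm_add_le _ _).trans ?_) _
      rw [norm_sub_rev E Q]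
      refine add_le_add_left ((norm_add_le _ _).trans ?_) _
      rw [norm_sub_rev W P]
    linarith
  -- integrate
  have hcX : ContinuousOn X D := hX.continuousOn.mono hDU
  have hcΨ : ContinuousOn (fun y : ℂ => Ψ (y ^ n)) D :=
    hΨ.continuousOn.comp (by fun_prop) fun y hy => (hpown y (hDn y hy).2).2
  have hcX' : ContinuousOn (fun y => X (η * y)) D := r1.continuousOn.mono hDU
  have hcΨ' : ContinuousOn (fun y : ℂ => Ψ ((η * y) ^ n)) D :=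
    hΨ.continuousOn.comp (by fun_prop) fun y hy => (hpown (η * y) (by
      rw [norm_mul, hη1, one_mul]; exact (hDn y hy).2)).2
  have J1 := PUL_int hm2 hb2 hDm hvt hcΨ
  have J2 := PUL_int hm1 hb1 hDm hvt hcX
  have J3 := PUL_int hm1 hb1 hDm hvt hcX'
  have J4 := PUL_int hm2 hb2 hDm hvt hcΨ'
  have J5 : IntegrableOn (fun _ : ℂ => 4 * (C₂ * s)) D := integrableOn_const hvt
  have hle : ∫ _y in D, (2 : ℝ) ≤ ∫ y in D, (‖μ (Ψ (y ^ n)) - e'‖ + ‖μ (X y) - e‖ + ‖μ (X (η * y)) - e‖ +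
      ‖μ (Ψ ((η * y) ^ n)) - e'‖ + 4 * (C₂ * s)) := by
    refine integral_mono_ae (integrableOn_const hvt) ((((J1.add J2).add J3).add J4).add J5) ?_
    rw [EventuallyLE, ae_restrict_iff' hDm]
    exact hpt
  have J12 : IntegrableOn (fun y => ‖μ (Ψ (y ^ n)) - e'‖ + ‖μ (X y) - e‖) D := J1.add J2
  have J123 : IntegrableOn (fun y => ‖μ (Ψ (y ^ n)) - e'‖ + ‖μ (X y) - e‖ + ‖μ (X (η * y)) - e‖) D := J12.add J3
  have J1234 : IntegrableOn (fun y => ‖μ (Ψ (y ^ n)) - e'‖ + ‖μ (X y) - e‖ + ‖μ (X (η * y)) - e‖ +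
      ‖μ (Ψ ((η * y) ^ n)) - e'‖) D := J123.add J4
  rw [integral_add J1234 J5, integral_add J123 J4, integral_add J12 J3, integral_add J1 J2, setIntegral_const,
    setIntegral_const, smul_eq_mul, smul_eq_mul, ← hv] at hle
  have hfin : ε / κ + C₁ * ε + C₁ * ε + ε / κ = (2 * C₁ + 2 / κ) * ε := by ring
  have h4 : v * (4 * (C₂ * s)) = v := by
    have : 4 * (C₂ * s) = 1 := by linarith
    rw [this, mul_one]
  linarith

end DH
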