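import Pool.Agent.helper18.DH.SpecM
import Pool.Agent.helper13.D2.SZC

/-!
# Module `TCL` (row `d2:MTCL`, helper93): closeness of the step maps `E⁻¹ F E`
-/

set_option autoImplicit false

open Filter Topology MeasureTheory
open scoped commutatorElement

namespace Pool.Agent.helper90.DH

open Pool.Agent.helper64.D2

theorem TCL_mono (g : DD) (a b : ℝ) (h : Sz g a) (hab : a ≤ b) : Sz g b := fun x => (h x).trans hab

theorem TCL_refl (f : DD) : Cl f f 0 0 0 := by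
  intro x
  simp

theorem TCL_cl_mono (f g : DD) (s0 s1 s2 t0 t1 t2 : ℝ) (h : Cl f g s0 s1 s2) (h0 : s0 ≤ t0) (h1 : s1 ≤ t1) (h2 : s2 ≤ t2) :
    Cl f g t0 t1 t2 := fun x => ⟨(h x).1.trans h0, (h x).2.1.trans h1, (h x).2.2.trans h2⟩

theorem TCL (hCLC : CLC_stmt) (hCLI : CLI_stmt) (hLPC : LPC_stmt) : TCL_stmt := by
  refine ⟨40, by norm_num, ?_⟩
  intro E E' F a M τ0 τ1 τ2 ha hM hE hE' hF hEM hFM hcl
  have ha0 : 0 ≤ a := SZC_nonneg E a hE
  have t0 : 0 ≤ τ0 := (abs_nonneg _).trans (hcl 0).1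
  have t1 : 0 ≤ τ1 := (abs_nonneg _).trans (hcl 0).2.1
  have t2 : 0 ≤ τ2 := (abs_nonneg _).trans (hcl 0).2.2
  have hM0 : 0 ≤ M := by linarith
  have hMt : 0 ≤ M * τ0 := mul_nonneg hM0 t0
  have hMt' : τ0 ≤ M * τ0 := by nlinarith
  -- step 1
  have h1 := hCLC F F E E' a M 1 0 0 0 τ0 τ1 τ2 (by linarith) hM0 (by norm_num) hF hE hE' hFM
    (fun x => (SZC_der E' a hE' x).trans (by linarith)) (TCL_refl F) hcl
  -- step 2
  have h2 := hCLI E E' a M τ0 τ1 τ2 (by linarith) hM0 hE hE' hEM hcl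
  -- sizes
  have hab : a + a + 4 * a * a ≤ 3 * a := by nlinarith
  have sFE : Sz (F * E) (3 * a) := TCL_mono _ _ _ (SZC_mul F E a a hF hE (by linarith)) hab
  have sFE' : Sz (F * E') (3 * a) := TCL_mono _ _ _ (SZC_mul F E' a a hF hE' (by linarith)) hab
  have sEi : Sz E⁻¹ (3 * a) := TCL_mono _ _ _ (SZC_inv E a hE (by linarith)) (by linarith)
  have lEi : Lp E⁻¹ (2 * M + 1) := hLPC.2 E a M (by linarith) hE hEM
  -- step 3
  have h3 := hCLC E⁻¹ E'⁻¹ (F * E) (F * E') (3 * a) (2 * M + 1) 1 _ _ _ _ _ _ (by linarith) (by linarith) (by norm_num)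
    sEi sFE sFE' lEi (fun x => (SZC_der (F * E') (3 * a) sFE' x).trans (by linarith)) h2 h1
  rw [mul_assoc, mul_assoc]
  refine TCL_cl_mono _ _ _ _ _ _ _ _ h3 ?_ ?_ ?_
  · nlinarith
  · nlinarith
  · nlinarith

end Pool.Agent.helper90.DH
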